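import Pool.Agent.W823.QT.Stm

set_option autoImplicit false

namespace Pool.Agent.W654.QTFSUM

open MeasureTheory ProbabilityTheory Filter Topology
open Pool.Agent.W823.QT
open scoped ENNReal NNReal

lemma wsum_mono (w : ℕ × ℕ → ℝ≥0∞) (n : ℕ) (f g : Finset (ℕ × ℕ) → ℝ≥0∞)
    (h : ∀ S, f S ≤ g S) : wsum w n f ≤ wsum w n g := by
  unfold wsum
  exact Finset.sum_le_sum (fun S _ => mul_le_mul_right (h S) _)

lemma EE_mono (ε : ℕ → ℝ≥0∞) (n : ℕ) (f g : Finset (ℕ × ℕ) → ℝ≥0∞)
    (h : ∀ S, f S ≤ g S) : EE ε n f ≤ EE ε n g := by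
  unfold EE
  exact ENNReal.div_le_div_right (wsum_mono _ _ _ _ h) _

lemma EE_sum (ε : ℕ → ℝ≥0∞) (n : ℕ) (s : Finset ℕ) (c : ℕ → ℝ≥0∞)
    (f : ℕ → Finset (ℕ × ℕ) → ℝ≥0∞) :
    EE ε n (fun S => ∑ r ∈ s, c r * f r S) = ∑ r ∈ s, c r * EE ε n (f r) := by
  unfold EE wsum
  simp only [div_eq_mul_inv, Finset.mul_sum, Finset.sum_mul]
  rw [Finset.sum_comm]
  refine Finset.sum_congr rfl (fun r _ => Finset.sum_congr rfl (fun S _ => ?_))
  ring

lemma free_anti (i : ℕ) (S T : Finset (ℕ × ℕ)) (h : S ⊆ T) : free i T ≤ free i S := by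
  unfold free
  refine Finset.card_le_card (fun k hk => ?_)
  rw [Finset.mem_filter] at hk ⊢
  exact ⟨hk.1, fun e he => hk.2 e (h he)⟩

lemma free_le (i : ℕ) (S : Finset (ℕ × ℕ)) : free i S ≤ i := by
  unfold free
  refine (Finset.card_filter_le _ _).trans ?_
  rw [Finset.card_range]

lemma free_filter (a : ℕ) (S : Finset (ℕ × ℕ)) :
    free a S = free a (S.filter fun e => e.1 < a) := by
  unfold free
  congr 1
  refine Finset.filter_congr (fun k hk => ?_)
  rw [Finset.mem_range] at hk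
  constructor
  · intro h e he
    exact h e (Finset.mem_filter.mp he).1
  · intro h e he hc
    exact h e (Finset.mem_filter.mpr ⟨he, lt_of_le_of_lt hc.1 hk⟩) hc

theorem main (h1 : MARG_T) (h2 : RUN_T) (h3 : RUNA_T) : FSUM_T := by
  intro ε hε N Ψ hΨ
  have step1 : ∀ i ∈ Finset.range (N + 1), EE ε i (fun S => Ψ (free i S)) ≤
      EE ε N (fun S => ∑ r ∈ Finset.range (N + 1), Ψ r * ind (free i S = r)) := by
    intro i hi
    have hiN : i ≤ N := by
      have := Finset.mem_range.mp hi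
      omega
    rw [← h1 ε hε.1 i N hiN (fun S => Ψ (free i S))]
    refine EE_mono _ _ _ _ (fun S => ?_)
    have e1 : Ψ (free i (S ∩ arcs i)) ≤ Ψ (free i S) :=
      hΨ (free_anti i _ _ Finset.inter_subset_left)
    refine e1.trans (le_of_eq ?_)
    rw [Finset.sum_eq_single (free i S)]
    · unfold ind
      rw [if_pos rfl, mul_one]
    · intro r _ hr
      unfold ind
      rw [if_neg (fun h => hr h.symm), mul_zero]
    · intro h
      exact absurd (Finset.mem_range.mpr (lt_of_le_of_lt (free_le i S) (by omega))) h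
  have step2 : ∀ r, ∑ i ∈ Finset.range (N + 1), EE ε N (fun S => ind (free i S = r)) ≤ 8 / 7 := by
    intro r
    refine h2 ε hε N (fun a S => free a S = r) ?_ ?_
    · intro a S
      rw [free_filter a S]
    · intro S hS
      convert h3 N r S hS
  calc ∑ i ∈ Finset.range (N + 1), EE ε i (fun S => Ψ (free i S)) ≤
      ∑ i ∈ Finset.range (N + 1),
        EE ε N (fun S => ∑ r ∈ Finset.range (N + 1), Ψ r * ind (free i S = r)) :=
        Finset.sum_le_sum step1
    _ = ∑ i ∈ Finset.range (N + 1), ∑ r ∈ Finset.range (N + 1),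
        Ψ r * EE ε N (fun S => ind (free i S = r)) := by
        refine Finset.sum_congr rfl (fun i _ => ?_)
        exact EE_sum ε N (Finset.range (N + 1)) Ψ (fun r S => ind (free i S = r))
    _ = ∑ r ∈ Finset.range (N + 1), Ψ r *
        ∑ i ∈ Finset.range (N + 1), EE ε N (fun S => ind (free i S = r)) := by
        rw [Finset.sum_comm]
        refine Finset.sum_congr rfl (fun r _ => ?_)
        rw [Finset.mul_sum]
    _ ≤ ∑ r ∈ Finset.range (N + 1), Ψ r * 2 := by
        refine Finset.sum_le_sum (fun r _ => mul_le_mul_right ((step2 r).trans ?_) _)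
        refine ENNReal.div_le_of_le_mul ?_
        norm_num
    _ = 2 * ∑ r ∈ Finset.range (N + 1), Ψ r := by
        rw [← Finset.sum_mul, mul_comm]
    _ ≤ 2 * ∑' r : ℕ, Ψ r := mul_le_mul_right (ENNReal.sum_le_tsum _) _

end Pool.Agent.W654.QTFSUM
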