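import Pool.Agent.W982.TA.Stm2

/-!
# Soundness of `certOK`
-/

set_option autoImplicit false

namespace Pool.Agent.W982.TA

namespace S10

open Classical in
/-- normalisation of the half vectors -/
noncomputable def nrm (e : Pt → Pt) (q : Pt) : Pt := if Norm (e q) then e q else -(e q)

theorem nrm_or (e : Pt → Pt) (q : Pt) : nrm e q = e q ∨ nrm e q = -(e q) := by
  unfold nrm
  split_ifs
  · exact Or.inl rfl
  · exact Or.inr rfl

theorem sg_nrm (e : Pt → Pt) (q : Pt) : sg (nrm e) q = sg e q := by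
  unfold sg
  rcases nrm_or e q with h | h
  · rw [h]
  · rw [h, Prod.fst_neg, Prod.snd_neg]
    ring

theorem norm_nrm (e : Pt → Pt) (q : Pt) (h : Int.gcd (e q).1 (e q).2 = 1) : Norm (nrm e q) := by
  unfold nrm
  split_ifs with h1
  · exact h1
  · unfold Norm at h1 ⊢
    rw [Prod.fst_neg, Prod.snd_neg]
    by_contra hne
    have h2 : (e q).2 = 0 := by omega
    have h3 : (e q).1 = 0 := by omega
    rw [h2, h3] at h
    simp at h

theorem ends (e : Pt → Pt) (q : Pt) :
    (q - nrm e q = q - e q ∧ q + nrm e q = q + e q) ∨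
      (q - nrm e q = q + e q ∧ q + nrm e q = q - e q) := by
  rcases nrm_or e q with h | h
  · left
    rw [h]
    exact ⟨rfl, rfl⟩
  · right
    rw [h, sub_neg_eq_add, ← sub_eq_add_neg]
    exact ⟨rfl, rfl⟩

theorem seg_eq (e : Pt → Pt) (q : Pt) :
    s(q - nrm e q, q + nrm e q) = s(q - e q, q + e q) := by
  rcases ends e q with ⟨h1, h2⟩ | ⟨h1, h2⟩
  · rw [h1, h2]
  · rw [h1, h2, Sym2.eq_swap]

theorem pc_swap1 (a b c d : Pt) (h : PCross b a c d) : PCross a b c d := by
  obtain ⟨h1, h2⟩ := h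
  refine ⟨?_, ?_⟩
  · have e1 : dt a b c * dt a b d = dt b a c * dt b a d := by
      unfold dt
      ring
    rw [e1]
    exact h1
  · rw [mul_comm]
    exact h2

theorem pc_swap2 (a b c d : Pt) (h : PCross a b d c) : PCross a b c d := by
  obtain ⟨h1, h2⟩ := h
  refine ⟨?_, ?_⟩
  · rw [mul_comm]
    exact h1
  · have e1 : dt c d a * dt c d b = dt d c a * dt d c b := by
      unfold dt
      ring
    rw [e1]
    exact h2

theorem medial_nrm {X Y : ℤ} {M : Finset Pt} {e : Pt → Pt} (h : Medial X Y M e) :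
    Medial X Y M (nrm e) where
  prim q hq := by
    rcases nrm_or e q with h1 | h1
    · rw [h1]
      exact h.prim q hq
    · rw [h1, Prod.fst_neg, Prod.snd_neg, Int.gcd_neg, Int.neg_gcd]
      exact h.prim q hq
  add_mem q hq := by
    rcases ends e q with ⟨h1, h2⟩ | ⟨h1, h2⟩
    · rw [h2]
      exact h.add_mem q hq
    · rw [h2]
      exact h.sub_mem q hq
  sub_mem q hq := by
    rcases ends e q with ⟨h1, h2⟩ | ⟨h1, h2⟩
    · rw [h1]
      exact h.sub_mem q hq
    · rw [h1]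
      exact h.add_mem q hq
  disj q hq q' hq' hne hc := by
    refine h.disj q hq q' hq' hne ?_
    rcases ends e q with ⟨h1, h2⟩ | ⟨h1, h2⟩ <;> rcases ends e q' with ⟨h3, h4⟩ | ⟨h3, h4⟩
    · rw [h1, h2, h3, h4] at hc
      exact hc
    · rw [h1, h2, h3, h4] at hc
      exact pc_swap2 _ _ _ _ hc
    · rw [h1, h2, h3, h4] at hc
      exact pc_swap1 _ _ _ _ hc
    · rw [h1, h2, h3, h4] at hc
      exact pc_swap1 _ _ _ _ (pc_swap2 _ _ _ _ hc)
  notri q₁ hq₁ q₂ hq₂ q₃ hq₃ a b c h1 h2 h3 := by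
    rw [seg_eq] at h1 h2 h3
    exact h.notri q₁ hq₁ q₂ hq₂ q₃ hq₃ a b c h1 h2 h3

end S10

theorem s10 (h1 : TaskS1) (h7 : TaskS7) (h8 : TaskS8) (h9 : TaskS9) : TaskS10 := by
  intro X Y M e o P bd cells cert hM hP hB hS hcert
  have hM' := S10.medial_nrm hM
  unfold certOK at hcert
  rw [Bool.and_eq_true, List.all_eq_true] at hcert
  obtain ⟨hall, hchk⟩ := hcert
  have hcell : ∀ c ∈ cells, missP P ((c.1 : ℤ), (c.2.1 : ℤ)) = true ∧ c.2.1 < 62 := by
    intro c hc
    have := hall c hc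
    rw [Bool.and_eq_true, decide_eq_true_eq] at this
    exact this
  refine h7 X Y M (S10.nrm e) o (cells.map fun q => ((q.1 : ℤ), (q.2.1 : ℤ)))
    (cells.map (dom0 P bd)) cert hM' ?_ ?_ hchk
  · intro i hi
    rw [List.length_map] at hi
    rw [List.getD_eq_getElem _ _ (by rw [List.length_map]; exact hi), List.getElem_map]
    obtain ⟨m1, _⟩ := hcell cells[i] (List.getElem_mem hi)
    exact hP _ _ m1
  · intro i hi
    rw [List.length_map] at hi
    rw [List.getD_eq_getElem _ _ (by rw [List.length_map]; exact hi), List.getElem_map,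
      List.getD_eq_getElem _ _ (by rw [List.length_map]; exact hi), List.getElem_map]
    have hmem : cells[i] ∈ cells := List.getElem_mem hi
    obtain ⟨m1, m2⟩ := hcell cells[i] hmem
    have hMem : (o.1 + (cells[i].1 : ℤ), o.2 + (cells[i].2.1 : ℤ)) ∈ M := hP _ _ m1
    have hnorm := S10.norm_nrm e _ (hM.prim _ hMem)
    obtain ⟨k, hk, hkT⟩ := h1 _ hnorm (hM'.prim _ hMem)
    refine ⟨k, hk, ?_, hkT⟩
    rw [h8 P bd cells[i] k hk]
    refine h9 X Y M (S10.nrm e) o P bd cells[i] k hM' hP hB ?_ m1 m2 hk hkT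
    obtain ⟨s1, s2⟩ := hS cells[i] hmem
    refine ⟨?_, ?_⟩
    · intro h
      rw [S10.sg_nrm]
      exact s1 h
    · intro h
      rw [S10.sg_nrm]
      exact s2 h

end Pool.Agent.W982.TA
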