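import Mathlib

set_option autoImplicit false

/-!
# Kronecker's theorem on simultaneous inhomogeneous approximation, general form
-/

namespace Pool.Agent.W654.Kron

open Filter Topology

variable {d : Type*} [Fintype d]

theorem mF_apply (k : d → ℤ) (x : UnitAddTorus d) :
    UnitAddTorus.mFourier k x = ∏ i, fourier (k i) (x i) := rfl

theorem mF_nsmul_add (k : d → ℤ) (z s : UnitAddTorus d) (n : ℕ) :
    UnitAddTorus.mFourier k (n • z + s) =
      (UnitAddTorus.mFourier k z) ^ n * UnitAddTorus.mFourier k s := by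
  rw [mF_apply, mF_apply, mF_apply, ← Finset.prod_pow, ← Finset.prod_mul_distrib]
  refine Finset.prod_congr rfl fun i _ => ?_
  simp only [Pi.add_apply, Pi.smul_apply, fourier_apply, smul_add]
  rw [AddCircle.toCircle_add, smul_comm, AddCircle.toCircle_nsmul]
  simp

theorem mF_norm (k : d → ℤ) (x : UnitAddTorus d) :
    ‖UnitAddTorus.mFourier k x‖ = 1 := by
  rw [mF_apply, norm_prod]
  refine Finset.prod_eq_one fun i _ => ?_
  rw [fourier_apply]
  exact Circle.norm_coe _

theorem mF_eq_toCircle (k : d → ℤ) (x : UnitAddTorus d) :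
    UnitAddTorus.mFourier k x = AddCircle.toCircle (∑ i, k i • x i) := by
  classical
  rw [mF_apply]
  have : ∀ s : Finset d, ∏ i ∈ s, fourier (k i) (x i) =
      ((AddCircle.toCircle (∑ i ∈ s, k i • x i) : Circle) : ℂ) := by
    intro s
    induction s using Finset.induction_on with
    | empty => simp [AddCircle.toCircle_zero]
    | insert a s ha ih =>
      rw [Finset.prod_insert ha, Finset.sum_insert ha, AddCircle.toCircle_add, ih, fourier_apply]
      simp
  exact this Finset.univ

theorem toCircle_eq_one {x : UnitAddCircle} (h : (AddCircle.toCircle x : ℂ) = 1) : x = 0 := by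
  have h1 : AddCircle.toCircle x = AddCircle.toCircle (0 : UnitAddCircle) := by
    rw [AddCircle.toCircle_zero]
    exact Subtype.ext h
  exact AddCircle.injective_toCircle one_ne_zero h1

theorem geom_avg (ρ : ℂ) (h1 : ‖ρ‖ = 1) (h2 : ρ ≠ 1) :
    Tendsto (fun N : ℕ => ((N : ℂ))⁻¹ * ∑ n ∈ Finset.range N, ρ ^ n) atTop (𝓝 0) := by
  have hb : ∀ N : ℕ, ‖((N : ℂ))⁻¹ * ∑ n ∈ Finset.range N, ρ ^ n‖ ≤ (2 / ‖ρ - 1‖) * ((N : ℝ))⁻¹ := by
    intro N
    rw [norm_mul, norm_inv, Complex.norm_natCast, geom_sum_eq h2, norm_div, mul_comm]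
    apply mul_le_mul_of_nonneg_right _ (by positivity)
    apply div_le_div_of_nonneg_right _ (norm_nonneg _)
    calc ‖ρ ^ N - 1‖ ≤ ‖ρ ^ N‖ + ‖(1 : ℂ)‖ := norm_sub_le _ _
      _ = 2 := by rw [norm_pow, h1]; norm_num
  refine squeeze_zero_norm hb ?_
  have : Tendsto (fun N : ℕ => ((N : ℝ))⁻¹) atTop (𝓝 0) := tendsto_inv_atTop_nhds_zero_nat
  simpa using this.const_mul (2 / ‖ρ - 1‖)

theorem span_avg (z x : UnitAddTorus d)
    (hz : ∀ k : d → ℤ, UnitAddTorus.mFourier k z = 1 → UnitAddTorus.mFourier k x = 1)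
    (q : C(UnitAddTorus d, ℂ))
    (hq : q ∈ Submodule.span ℂ (Set.range (UnitAddTorus.mFourier (d := d)))) :
    Tendsto (fun N : ℕ => ((N : ℂ))⁻¹ *
      ∑ n ∈ Finset.range N, (q (n • z + x) - q (n • z + 0))) atTop (𝓝 0) := by
  induction hq using Submodule.span_induction with
  | mem y hy =>
    obtain ⟨k, rfl⟩ := hy
    by_cases hk : UnitAddTorus.mFourier k z = 1
    · refine tendsto_const_nhds.congr fun N => ?_
      rw [Finset.sum_eq_zero, mul_zero]
      intro n _
      rw [mF_nsmul_add, mF_nsmul_add, hz k hk, hk, mF_eq_toCircle k 0]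
      simp [AddCircle.toCircle_zero]
    · have := (geom_avg _ (mF_norm k z) hk).mul_const (UnitAddTorus.mFourier k x - 1)
      rw [zero_mul] at this
      refine this.congr fun N => ?_
      rw [mul_assoc, Finset.sum_mul]
      congr 1
      refine Finset.sum_congr rfl fun n _ => ?_
      rw [mF_nsmul_add, mF_nsmul_add, mF_eq_toCircle k 0]
      simp [AddCircle.toCircle_zero]
      ring
  | zero => simp
  | add p q _ _ hp hq =>
    have := hp.add hq
    rw [add_zero] at this
    refine this.congr fun N => ?_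
    rw [← mul_add, ← Finset.sum_add_distrib]
    congr 1
    refine Finset.sum_congr rfl fun n _ => ?_
    simp only [ContinuousMap.add_apply]
    ring
  | smul u p _ hp =>
    have := hp.const_mul u
    rw [mul_zero] at this
    refine this.congr fun N => ?_
    simp only [ContinuousMap.smul_apply, smul_eq_mul]
    rw [← mul_assoc, mul_comm u, mul_assoc, Finset.mul_sum]
    congr 1
    refine Finset.sum_congr rfl fun n _ => ?_
    ring

/-- recurrence: the multiples of `z` return to a neighbourhood of zero with positive density -/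
theorem recur (z : UnitAddTorus d) (ε : ℝ) (hε : 0 < ε) :
    ∃ K : ℕ, 0 < K ∧ ∀ N : ℕ, N ≤ K * ((Finset.range N).filter fun n => ‖n • z‖ < ε).card := by
  classical
  obtain ⟨S, hS⟩ := isCompact_univ.elim_finite_subcover
    (fun s : UnitAddTorus d => Metric.ball s (ε / 2)) (fun s => Metric.isOpen_ball) (by
      intro y _
      rw [Set.mem_iUnion]
      exact ⟨y, Metric.mem_ball_self (by linarith)⟩)
  refine ⟨S.card + 1, by positivity, fun N => ?_⟩
  have hmem : ∀ y : UnitAddTorus d, ∃ s ∈ S, dist y s < ε / 2 := by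
    intro y
    obtain ⟨s, hs⟩ := Set.mem_iUnion.mp (hS (Set.mem_univ y))
    obtain ⟨hsS, hs2⟩ := Set.mem_iUnion.mp hs
    exact ⟨s, hsS, hs2⟩
  choose c hcS hc using hmem
  by_contra hcon
  push Not at hcon
  set R := (Finset.range N).filter fun n => ‖n • z‖ < ε with hR
  have h1 : S.card * R.card < (Finset.range N).card := by
    rw [Finset.card_range]
    nlinarith
  obtain ⟨s, hsS, hs⟩ := Finset.exists_lt_card_fiber_of_mul_lt_card_of_maps_to
    (s := Finset.range N) (t := S) (f := fun n => c (n • z)) (n := R.card)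
    (fun n _ => hcS _) h1
  set P := (Finset.range N).filter fun n => c (n • z) = s with hP
  have hPne : P.Nonempty := by
    rw [← Finset.card_pos]; omega
  set n0 := P.min' hPne with hn0
  have hn0P : n0 ∈ P := Finset.min'_mem _ _
  have hinj : P.card ≤ R.card := by
    refine Finset.card_le_card_of_injOn (fun n => n - n0) ?_ ?_
    · intro n hn
      have hn' : n ∈ P := hn
      have hle : n0 ≤ n := Finset.min'_le _ _ hn'
      rw [hP, Finset.mem_filter] at hn' hn0P
      show n - n0 ∈ R
      rw [hR, Finset.mem_filter, Finset.mem_range]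
      refine ⟨?_, ?_⟩
      · have := Finset.mem_range.1 hn'.1
        omega
      · have e : (n - n0) • z = n • z - n0 • z := by
          rw [eq_sub_iff_add_eq, ← add_nsmul, Nat.sub_add_cancel hle]
        rw [e, ← dist_eq_norm]
        have h2 := hc (n • z)
        have h3 := hc (n0 • z)
        rw [hn'.2] at h2
        rw [hn0P.2] at h3
        calc dist (n • z) (n0 • z) ≤ dist (n • z) s + dist (n0 • z) s := dist_triangle_right _ _ _
          _ < ε := by linarith
    · intro a ha b hb hab
      have h2 : n0 ≤ a := Finset.min'_le _ _ ha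
      have h3 : n0 ≤ b := Finset.min'_le _ _ hb
      simp only at hab
      omega
  omega

/-- **Kronecker's theorem.** -/
theorem kronecker (z x : UnitAddTorus d)
    (hz : ∀ k : d → ℤ, ∑ i, k i • z i = 0 → ∑ i, k i • x i = 0)
    (ε : ℝ) (hε : 0 < ε) : ∃ n : ℕ, dist (n • z) x < ε := by
  classical
  by_contra hcon
  push Not at hcon
  have hz' : ∀ k : d → ℤ, UnitAddTorus.mFourier k z = 1 → UnitAddTorus.mFourier k x = 1 := by
    intro k hk
    rw [mF_eq_toCircle] at hk ⊢
    rw [hz k (toCircle_eq_one hk), AddCircle.toCircle_zero]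
    rfl
  let f : C(UnitAddTorus d, ℂ) := ⟨fun y => ((max 0 (ε - dist y x) : ℝ) : ℂ), by fun_prop⟩
  have hf : ∀ y, f y = ((max 0 (ε - dist y x) : ℝ) : ℂ) := fun y => rfl
  have hf0 : ∀ n : ℕ, f (n • z + 0) = 0 := by
    intro n
    rw [hf, add_zero, max_eq_left (by linarith [hcon n])]
    simp
  obtain ⟨K, hK, hrec⟩ := recur z (ε / 2) (by linarith)
  set η : ℝ := ε / (8 * K) with hη
  have hK' : (0 : ℝ) < K := by exact_mod_cast hK
  have hη0 : 0 < η := by positivity
  have hfcl : f ∈ (Submodule.span ℂ (Set.range (UnitAddTorus.mFourier (d := d)))).topologicalClosure := by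
    rw [UnitAddTorus.span_mFourier_closure_eq_top]; trivial
  obtain ⟨q, hq, hqf⟩ := Metric.mem_closure_iff.mp hfcl η hη0
  rw [dist_eq_norm] at hqf
  have hq2 : ∀ y, ‖f y - q y‖ ≤ η := fun y => ((f - q).norm_coe_le_norm y).trans hqf.le
  have hlim := span_avg z x hz' q hq
  have hev : ∀ᶠ N : ℕ in atTop, ‖((N : ℂ))⁻¹ *
      ∑ n ∈ Finset.range N, (q (n • z + x) - q (n • z + 0))‖ < η := by
    have := hlim.norm
    rw [norm_zero] at this
    exact this.eventually (gt_mem_nhds hη0)
  obtain ⟨N, hN1, hN2⟩ := (hev.and (eventually_gt_atTop 0)).exists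
  have hN' : (0 : ℝ) < N := by exact_mod_cast hN2
  -- lower bound
  have hlow : (N : ℝ) * (ε / (2 * K)) ≤ ∑ n ∈ Finset.range N, (f (n • z + x)).re := by
    have h1 : ∀ n : ℕ, (f (n • z + x)).re = max 0 (ε - ‖n • z‖) := by
      intro n
      rw [hf, Complex.ofReal_re, dist_eq_norm, add_sub_cancel_right]
    simp only [h1]
    have h2 : ∑ n ∈ (Finset.range N).filter (fun n => ‖n • z‖ < ε / 2), (ε / 2) ≤
        ∑ n ∈ Finset.range N, max 0 (ε - ‖n • z‖) := by
      refine (Finset.sum_le_sum (g := fun n => max 0 (ε - ‖n • z‖)) ?_).trans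
        (Finset.sum_le_sum_of_subset_of_nonneg (Finset.filter_subset _ _)
          fun _ _ _ => le_max_left _ _)
      intro n hn
      rw [Finset.mem_filter] at hn
      exact le_max_of_le_right (by linarith [hn.2])
    refine le_trans ?_ h2
    rw [Finset.sum_const, nsmul_eq_mul]
    have h3 : (N : ℝ) ≤ K * ((Finset.range N).filter fun n => ‖n • z‖ < ε / 2).card := by
      exact_mod_cast hrec N
    calc (N : ℝ) * (ε / (2 * K)) ≤
        (K * ((Finset.range N).filter fun n => ‖n • z‖ < ε / 2).card) * (ε / (2 * K)) :=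
          mul_le_mul_of_nonneg_right h3 (by positivity)
      _ = _ := by
        generalize (((Finset.range N).filter fun n => ‖n • z‖ < ε / 2).card : ℝ) = c
        field_simp
  have hup : ∑ n ∈ Finset.range N, (f (n • z + x)).re ≤ N * (3 * η) := by
    have h1 : ∀ n : ℕ, (f (n • z + x)).re ≤ (q (n • z + x) - q (n • z + 0)).re + 2 * η := by
      intro n
      have h4 := (Complex.abs_re_le_norm _).trans (hq2 (n • z + x))
      have h5 := (Complex.abs_re_le_norm _).trans (hq2 (n • z + 0))
      rw [hf0, zero_sub, Complex.neg_re, abs_neg] at h5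
      rw [Complex.sub_re] at h4 ⊢
      rw [abs_le] at h4 h5
      linarith [h4.2, h5.1, h5.2]
    have h2 : ∑ n ∈ Finset.range N, (f (n • z + x)).re ≤
        ∑ n ∈ Finset.range N, ((q (n • z + x) - q (n • z + 0)).re + 2 * η) :=
      Finset.sum_le_sum fun n _ => h1 n
    refine h2.trans ?_
    rw [Finset.sum_add_distrib, ← Complex.re_sum]
    have h3 : (∑ n ∈ Finset.range N, (q (n • z + x) - q (n • z + 0))).re ≤ N * η := by
      refine (Complex.re_le_norm _).trans ?_
      rw [norm_mul, norm_inv, Complex.norm_natCast] at hN1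
      have := mul_le_mul_of_nonneg_left hN1.le hN'.le
      rwa [← mul_assoc, mul_inv_cancel₀ hN'.ne', one_mul] at this
    simp only [Finset.sum_const, nsmul_eq_mul, Finset.card_range]
    linarith
  have h := hlow.trans hup
  have h' : ε / (2 * K) ≤ 3 * η := le_of_mul_le_mul_left h hN'
  rw [hη] at h'
  have e : 3 * (ε / (8 * K)) = (3 / 4) * (ε / (2 * K)) := by field_simp; ring
  rw [e] at h'
  have : 0 < ε / (2 * K) := by positivity
  linarith

end Pool.Agent.W654.Kron
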