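import Pool.Agent.W957.CH.Stm
import Pool.Agent.W957.CH.StmB
import Pool.Agent.W957.CH.Stm2

set_option autoImplicit false

namespace Pool.Agent.W654.CHUC

open Finset Pool.Agent.W957.CH

lemma mem_nbr {V : Type} (G : SimpleGraph V) (A P : Finset V) (w : V) :
    w ∈ nbr G A P ↔ w ∈ A ∧ w ∉ P ∧ ∃ p ∈ P, G.Adj p w := by
  classical
  unfold nbr
  simp only [Finset.mem_filter]

section

variable {V : Type} [DecidableEq V]

/-- positions on the boundary -/
lemma card1 (X : Cx V) (n : ℕ) (c : ℕ → V) (hc : Good X n c) :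
    ((range n).filter (fun i => c i ∈ X.B)).card ≤ X.B.card := by
  refine Finset.card_le_card_of_injOn c ?_ ?_
  · intro i hi
    have hi' := Finset.mem_filter.1 (Finset.mem_coe.1 hi)
    exact hi'.2
  · intro i hi j hj hij
    have hi' := Finset.mem_filter.1 (Finset.mem_coe.1 hi)
    have hj' := Finset.mem_filter.1 (Finset.mem_coe.1 hj)
    exact hc.cr.inj i j (Finset.mem_range.1 hi'.1) (Finset.mem_range.1 hj'.1) hij

open Classical in
/-- ends of chords -/
lemma card2 (h2 : S_CH2C) (h4 : S_CL) (X : Cx V) (n : ℕ) (c : ℕ → V) (hX : Ok X)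
    (hc : Good X n c) : ((range n).filter (fun i => chE X.G n c i)).card ≤ 2 * X.m := by
  obtain ⟨e1, e2⟩ := h2 V X.G n c hc.cr
  obtain ⟨f1, f2, f3⟩ := h4 V X.G n c hc.cr
  have hmem : ∀ x ∈ sg c 0 (n - 1), x ∈ X.A := by
    intro x hx
    have hx' : x ∈ img n c := by
      rw [← f2]
      exact List.mem_toFinset.2 hx
    unfold img at hx'
    rw [Finset.mem_image] at hx'
    obtain ⟨i, hi, rfl⟩ := hx'
    exact hc.sub i (Finset.mem_range.1 hi)
  have g1 := hX.chd _ f1 hmem
  have g2 := hX.chm _ f1 hmem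
  rw [f2, f3] at g1
  rw [f3] at g2
  unfold ch2 at g1
  rw [e1, e2] at g1
  set P : Finset (ℕ × ℕ) := (range n ×ˢ range n).filter
    (fun p => X.G.Adj (c p.1) (c p.2) ∧ ¬ cons n p.1 p.2) with hP
  have hle : ((range n).filter (fun i => chE X.G n c i)).card ≤ P.card := by
    have hsub : ((range n).filter (fun i => chE X.G n c i)) ⊆ P.image Prod.fst := by
      intro i hi
      rw [Finset.mem_filter] at hi
      obtain ⟨hi1, j, hj, hadj, hcons⟩ := hi
      rw [Finset.mem_image]
      refine ⟨(i, j), ?_, rfl⟩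
      rw [hP, Finset.mem_filter, Finset.mem_product]
      exact ⟨⟨hi1, Finset.mem_range.2 hj⟩, hadj, hcons⟩
    exact (Finset.card_le_card hsub).trans Finset.card_image_le
  omega

open Classical in
/-- positions attached to a component -/
lemma card3 (h1 : S_X) (X : Cx V) (n : ℕ) (c : ℕ → V) (hX : Ok X) (hc : Good X n c)
    (K : Finset V) (hK : Comp X n c K) :
    ((range n).filter (fun i => At X c K i)).card ≤ beta X.m X.B.card := by
  obtain ⟨k1, k2, k3, k4⟩ := hK
  have g1 := h1 V X n c K X.B.card hX hc k1 k2 k3 (by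
    have e1 : nbr X.G X.A K \ img n c = ∅ := Finset.sdiff_eq_empty_iff_subset.2 k4
    rw [e1, Finset.card_empty, zero_add]
    exact Finset.card_le_card Finset.inter_subset_right)
  refine le_trans ?_ g1
  refine Finset.card_le_card_of_injOn c ?_ ?_
  · intro i hi
    have hi' := Finset.mem_filter.1 (Finset.mem_coe.1 hi)
    obtain ⟨hi1, v, hv, hadj⟩ := hi'
    have himg : c i ∈ img n c := Finset.mem_image_of_mem c hi1
    rw [Finset.mem_coe, Finset.mem_inter]
    refine ⟨?_, himg⟩
    rw [mem_nbr]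
    refine ⟨hc.sub i (Finset.mem_range.1 hi1), ?_, v, hv, hadj⟩
    intro h
    exact Finset.disjoint_left.1 k3 h himg
  · intro i hi j hj hij
    have hi' := Finset.mem_filter.1 (Finset.mem_coe.1 hi)
    have hj' := Finset.mem_filter.1 (Finset.mem_coe.1 hj)
    exact hc.cr.inj i j (Finset.mem_range.1 hi'.1) (Finset.mem_range.1 hj'.1) hij

open Classical in
/-- positions attached to the component of a boundary vertex -/
lemma card4 (h1 : S_X) (h3 : S_PC0) (X : Cx V) (n : ℕ) (c : ℕ → V) (hX : Ok X)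
    (hc : Good X n c) (b : V) :
    ((range n).filter (fun i => ∃ K, Comp X n c K ∧ b ∈ K ∧ At X c K i)).card ≤
      beta X.m X.B.card := by
  by_cases h : ∃ K, Comp X n c K ∧ b ∈ K
  · obtain ⟨K, hK, hb⟩ := h
    refine le_trans (Finset.card_le_card ?_) (card3 h1 X n c hX hc K hK)
    intro i hi
    rw [Finset.mem_filter] at hi ⊢
    obtain ⟨hi1, K', hK', hb', hat⟩ := hi
    have : K' = K := (h3 V X n c hX hc).2.1 K' K b hK' hK hb' hb
    rw [this] at hat
    exact ⟨hi1, hat⟩
  · have : ((range n).filter (fun i => ∃ K, Comp X n c K ∧ b ∈ K ∧ At X c K i)) = ∅ := by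
      rw [Finset.filter_eq_empty_iff]
      rintro i _ ⟨K, hK, hb, _⟩
      exact h ⟨K, hK, hb⟩
    rw [this, Finset.card_empty]
    exact Nat.zero_le _

end

theorem t_UC (h1 : S_X) (h2 : S_CH2C) (h3 : S_PC0) (h4 : S_CL) : S_UC := by
  classical
  intro V _ X n c hX hc
  have hsub : ((range n).filter (fun i => ¬ Cl X n c i)) ⊆
      ((range n).filter (fun i => c i ∈ X.B)) ∪ ((range n).filter (fun i => chE X.G n c i)) ∪
        X.B.biUnion (fun b => (range n).filter (fun i => ∃ K, Comp X n c K ∧ b ∈ K ∧ At X c K i)) := by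
    intro i hi
    rw [Finset.mem_filter] at hi
    obtain ⟨hi1, hi2⟩ := hi
    rw [Finset.mem_union, Finset.mem_union]
    by_cases hB : c i ∈ X.B
    · exact Or.inl (Or.inl (Finset.mem_filter.2 ⟨hi1, hB⟩))
    by_cases hch : chE X.G n c i
    · exact Or.inl (Or.inr (Finset.mem_filter.2 ⟨hi1, hch⟩))
    right
    have : ¬ ∀ K, Comp X n c K → At X c K i → Disjoint K X.B := fun h =>
      hi2 ⟨Finset.mem_range.1 hi1, hB, hch, h⟩
    push Not at this
    obtain ⟨K, hK, hat, hdis⟩ := this
    rw [Finset.not_disjoint_iff] at hdis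
    obtain ⟨b, hbK, hbB⟩ := hdis
    rw [Finset.mem_biUnion]
    exact ⟨b, hbB, Finset.mem_filter.2 ⟨hi1, K, hK, hbK, hat⟩⟩
  have hc1 := card1 X n c hc
  have hc2 := card2 h2 h4 X n c hX hc
  have hc3 : (X.B.biUnion (fun b => (range n).filter
      (fun i => ∃ K, Comp X n c K ∧ b ∈ K ∧ At X c K i))).card ≤ X.B.card * beta X.m X.B.card := by
    refine Finset.card_biUnion_le.trans ?_
    refine (Finset.sum_le_card_nsmul _ _ (beta X.m X.B.card) (fun b _ =>
      card4 h1 h3 X n c hX hc b)).trans ?_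
    rw [smul_eq_mul]
  have hfin := Finset.card_le_card hsub
  have hu1 := Finset.card_union_le (((range n).filter (fun i => c i ∈ X.B)) ∪
    ((range n).filter (fun i => chE X.G n c i)))
    (X.B.biUnion (fun b => (range n).filter (fun i => ∃ K, Comp X n c K ∧ b ∈ K ∧ At X c K i)))
  have hu2 := Finset.card_union_le ((range n).filter (fun i => c i ∈ X.B))
    ((range n).filter (fun i => chE X.G n c i))
  have hUU : UU X.m X.B.card = X.B.card + X.B.card * beta X.m X.B.card + 2 * X.m := by
    unfold UU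
    ring
  rw [hUU]
  have hgoal : ((range n).filter (fun i => ¬ Cl X n c i)).card ≤
      X.B.card + X.B.card * beta X.m X.B.card + 2 * X.m := by omega
  convert hgoal

end Pool.Agent.W654.CHUC
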