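import Pool.Agent.W527.CL.Stm

set_option autoImplicit false

namespace Pool.Agent.W654.CLINDEP

open Pool.Agent.W527.CL NumberField Polynomial

/-- the value at `- n`, up to the sign -/
def FF (n : ℤ) : ℤ := n ^ 5 - 4 * n - 2

lemma cop1 (i j : Fin 4) (h : i ≠ j) : IsCoprime (FF (nn i)) (FF (nn j)) := by
  rw [Int.isCoprime_iff_gcd_eq_one]
  revert h
  fin_cases i <;> fin_cases j <;> intro h <;>
    first
    | exact absurd rfl h
    | (simp only [FF, nn]; decide)

lemma cop2 (j : Fin 4) : IsCoprime (FF (nn j)) (5 * (nn j) ^ 4 - 4) := by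
  rw [Int.isCoprime_iff_gcd_eq_one]
  fin_cases j <;> (simp only [FF, nn]; decide)

lemma no_cop {Q : Type} [CommRing Q] [Nontrivial Q] (x y : ℤ) (h : IsCoprime x y)
    (hx : (x : Q) = 0) (hy : (y : Q) = 0) : False := by
  obtain ⟨u, v, huv⟩ := h
  have h1 : ((u * x + v * y : ℤ) : Q) = 1 := by rw [huv]; simp
  push_cast at h1
  rw [hx, hy] at h1
  simp at h1

lemma FF_zero {Q : Type} [CommRing Q] (s : Q) (hs : s ^ 5 - 4 * s + 2 = 0) (n : ℤ)
    (h : s + (n : Q) = 0) : ((FF n : ℤ) : Q) = 0 := by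
  have h1 : s = -(n : Q) := eq_neg_of_add_eq_zero_left h
  rw [h1] at hs
  unfold FF
  push_cast
  linear_combination (-1 : Q) * hs

lemma fieldcase {Q : Type} [CommRing Q] [IsDomain Q] (s t : Q) (hs : s ^ 5 - 4 * s + 2 = 0)
    (ht : t ^ 5 - 4 * t + 2 = 0)
    (hH : s ^ 4 + s ^ 3 * t + s ^ 2 * t ^ 2 + s * t ^ 3 + t ^ 4 - 4 = 0) (a c : Fin 4 → ℕ)
    (hac : ∀ i, a i = 0 ∨ c i = 0) (j : Fin 4) (hj : a j ≠ 0) (hsj : s + (nn j : Q) = 0)
    (hrel : (∏ i, (s + (nn i : Q)) ^ a i) * (∏ i, (t + (nn i : Q)) ^ c i) =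
      (∏ i, (t + (nn i : Q)) ^ a i) * (∏ i, (s + (nn i : Q)) ^ c i)) : False := by
  have h0 : ∏ i, (s + (nn i : Q)) ^ a i = 0 :=
    Finset.prod_eq_zero (Finset.mem_univ j) (by rw [hsj, zero_pow hj])
  rw [h0, zero_mul] at hrel
  have hFj := FF_zero s hs (nn j) hsj
  rcases mul_eq_zero.1 hrel.symm with h | h
  · obtain ⟨i, _, hi⟩ := Finset.prod_eq_zero_iff.1 h
    have hti : t + (nn i : Q) = 0 := eq_zero_of_pow_eq_zero hi
    have hFi := FF_zero t ht (nn i) hti
    by_cases hij : i = j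
    · subst hij
      have h1 : s = -(nn i : Q) := eq_neg_of_add_eq_zero_left hsj
      have h2 : t = -(nn i : Q) := eq_neg_of_add_eq_zero_left hti
      refine no_cop (Q := Q) _ _ (cop2 i) hFj ?_
      rw [h1, h2] at hH
      push_cast
      linear_combination hH
    · exact no_cop (Q := Q) _ _ (cop1 i j hij) hFi hFj
  · obtain ⟨i, _, hi⟩ := Finset.prod_eq_zero_iff.1 h
    have hsi : s + (nn i : Q) = 0 := eq_zero_of_pow_eq_zero hi
    have hci : c i ≠ 0 := by
      intro h0
      rw [h0, pow_zero] at hi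
      exact one_ne_zero hi
    have hij : i ≠ j := by
      rintro rfl
      rcases hac i with h | h
      · exact hj h
      · exact hci h
    exact no_cop (Q := Q) _ _ (cop1 i j hij) (FF_zero s hs (nn i) hsi) hFj

/-- the product of the values -/
lemma prod_eq (β : Fin 5 → ℂ) (inj : Function.Injective β)
    (root : ∀ k, β k ^ 5 - 4 * β k + 2 = 0) (n : ℤ) : ∏ k, (β k + (n : ℂ)) = (FF n : ℂ) := by
  classical
  set f : ℂ[X] := X ^ 5 - C 4 * X + C 2 with hf
  set g : ℂ[X] := ∏ k, (X - C (β k)) with hg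
  have hfm : f.Monic := by rw [hf]; monicity!
  have hfd : f.natDegree = 5 := by rw [hf]; compute_degree!
  have hgm : g.Monic := monic_prod_of_monic _ _ (fun k _ => monic_X_sub_C _)
  have hgd : g.natDegree = 5 := by
    rw [hg, natDegree_prod_of_monic _ _ (fun k _ => monic_X_sub_C _)]
    simp
  have heq : g = f := by
    refine Polynomial.eq_of_degree_sub_lt_of_eval_finset_eq (Finset.univ.image β) ?_ ?_
    · have h1 : (g - f).degree < g.degree := by
        refine degree_sub_lt_left ?_ hgm.ne_zero ?_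
        · rw [degree_eq_natDegree hgm.ne_zero, degree_eq_natDegree hfm.ne_zero, hgd, hfd]
        · rw [hgm.leadingCoeff, hfm.leadingCoeff]
      rw [degree_eq_natDegree hgm.ne_zero, hgd] at h1
      rw [Finset.card_image_of_injective _ inj]
      simpa using h1
    · intro x hx
      rw [Finset.mem_image] at hx
      obtain ⟨k, _, rfl⟩ := hx
      have e1 : g.eval (β k) = 0 := by
        rw [hg, eval_prod]
        exact Finset.prod_eq_zero (Finset.mem_univ k) (by simp)
      have e2 : f.eval (β k) = 0 := by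
        rw [hf]
        simpa using root k
      rw [e1, e2]
  have h2 : g.eval (-(n : ℂ)) = f.eval (-(n : ℂ)) := by rw [heq]
  rw [hg, hf, eval_prod] at h2
  simp only [eval_sub, eval_X, eval_C, eval_add, eval_mul, eval_pow] at h2
  have h3 : ∏ k, (-(n : ℂ) - β k) = -∏ k, (β k + (n : ℂ)) := by
    have : ∀ k, (-(n : ℂ) - β k) = (-1) * (β k + (n : ℂ)) := fun k => by ring
    simp only [this]
    rw [Finset.prod_mul_distrib, Finset.prod_const]
    simp
    norm_num
  rw [h3] at h2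
  unfold FF
  push_cast
  linear_combination (-1 : ℂ) * h2

lemma not_int (F : ℤ) (hF : 1 < F) (w : ℂ) (hw : IsIntegral ℤ w) (h : (F : ℂ) * w = 1) : False := by
  have hF0 : (F : ℂ) ≠ 0 := by
    have : F ≠ 0 := by omega
    exact_mod_cast this
  have h1 : w = algebraMap ℚ ℂ ((1 : ℚ) / F) := by
    have : w = 1 / (F : ℂ) := by
      field_simp
      linear_combination h
    rw [this]
    simp
  rw [h1, isIntegral_algebraMap_iff (algebraMap ℚ ℂ).injective] at hw
  obtain ⟨z, hz⟩ := IsIntegrallyClosed.isIntegral_iff.1 hw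
  have hFQ : (F : ℚ) ≠ 0 := by
    have : F ≠ 0 := by omega
    exact_mod_cast this
  have h2 : (z : ℚ) * F = 1 := by
    have : (z : ℚ) = 1 / F := by simpa using hz
    rw [this]
    field_simp
  have h3 : z * F = 1 := by exact_mod_cast h2
  have h4 : F ∣ 1 := ⟨z, by linarith⟩
  have := Int.le_of_dvd one_pos h4
  omega

lemma FF_gt (j : Fin 4) : 1 < FF (nn j) := by
  fin_cases j <;> (simp only [FF, nn]; decide)

lemma not_unit {K : Type} [Field K] [NumberField K] (D : FieldData K) (j : Fin 4) (y : K)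
    (hy : IsIntegral ℤ y) (h : (D.b 0 + (nn j : K)) * y = 1) : False := by
  have hφ : ∀ k : Fin 5, ∃ w : ℂ, IsIntegral ℤ w ∧ (D.β k + (nn j : ℂ)) * w = 1 := by
    intro k
    obtain ⟨φ, hφ⟩ := D.surj (Equiv.swap 0 k)
    refine ⟨φ y, hy.map φ.toIntAlgHom, ?_⟩
    have h1 := congrArg φ h
    rw [map_mul, map_add, map_one, map_intCast, hφ 0, Equiv.swap_apply_left] at h1
    exact h1
  choose w hw1 hw2 using hφ
  refine not_int (FF (nn j)) (FF_gt j) (∏ k, w k) (IsIntegral.prod _ (fun k _ => hw1 k)) ?_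
  rw [← prod_eq D.β D.inj D.root, ← Finset.prod_mul_distrib]
  exact Finset.prod_eq_one (fun k _ => hw2 k)

lemma core {K : Type} [Field K] [NumberField K] (D : FieldData K) (m : Fin 4 → ℤ)
    (hrel : ∏ j, (D.β 0 + (nn j : ℂ)) ^ m j = ∏ j, (D.β 1 + (nn j : ℂ)) ^ m j) (j : Fin 4)
    (hj : 0 < m j) : False := by
  obtain ⟨φ, hφ⟩ := D.surj 1
  have hK : ∏ j, (D.b 0 + (nn j : K)) ^ m j = ∏ j, (D.b 1 + (nn j : K)) ^ m j := by
    apply φ.injective
    rw [map_prod, map_prod]
    simp only [map_zpow₀, map_add, map_intCast, hφ, Equiv.Perm.coe_one, id_eq]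
    exact hrel
  have hsplit : ∀ x : K, x ≠ 0 → ∀ e : ℤ, x ^ e * x ^ (-e).toNat = x ^ e.toNat := by
    intro x hx e
    rw [← zpow_natCast x (-e).toNat, ← zpow_natCast x e.toNat, ← zpow_add₀ hx]
    congr 1
    omega
  have hrel2 : (∏ i, (D.b 0 + (nn i : K)) ^ (m i).toNat) * (∏ i, (D.b 1 + (nn i : K)) ^ (-m i).toNat) =
      (∏ i, (D.b 1 + (nn i : K)) ^ (m i).toNat) * (∏ i, (D.b 0 + (nn i : K)) ^ (-m i).toNat) := by
    have e0 : ∏ i, (D.b 0 + (nn i : K)) ^ (m i).toNat =
        (∏ i, (D.b 0 + (nn i : K)) ^ m i) * ∏ i, (D.b 0 + (nn i : K)) ^ (-m i).toNat := by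
      rw [← Finset.prod_mul_distrib]
      exact Finset.prod_congr rfl (fun i _ => (hsplit _ (D.ne_zero 0 i) _).symm)
    have e1 : ∏ i, (D.b 1 + (nn i : K)) ^ (m i).toNat =
        (∏ i, (D.b 1 + (nn i : K)) ^ m i) * ∏ i, (D.b 1 + (nn i : K)) ^ (-m i).toNat := by
      rw [← Finset.prod_mul_distrib]
      exact Finset.prod_congr rfl (fun i _ => (hsplit _ (D.ne_zero 1 i) _).symm)
    rw [e0, e1, hK]
    ring
  have hint : ∀ k, IsIntegral ℤ (D.b k) := by
    intro k
    refine ⟨X ^ 5 - C 4 * X + C 2, by monicity!, ?_⟩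
    have := D.rootK k
    simpa [eval₂_add, eval₂_sub, eval₂_mul, eval₂_pow] using this
  let R := integralClosure ℤ K
  let B : Fin 5 → R := fun k => ⟨D.b k, hint k⟩
  have hinj : Function.Injective (algebraMap R K) := Subtype.val_injective
  have hB : ∀ k, algebraMap R K (B k) = D.b k := fun k => rfl
  have hnu : B 0 + (nn j : R) ∈ nonunits R := by
    intro hu
    obtain ⟨y, hy⟩ := hu.exists_right_inv
    refine not_unit D j (algebraMap R K y) y.2 ?_
    have := congrArg (algebraMap R K) hy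
    rw [map_mul, map_add, map_one, map_intCast, hB] at this
    exact this
  obtain ⟨I, hI, hmem⟩ := exists_max_ideal_of_mem_nonunits hnu
  have hroot : ∀ k, B k ^ 5 - 4 * B k + 2 = 0 := by
    intro k
    apply hinj
    simp only [map_add, map_sub, map_mul, map_pow, map_ofNat, map_zero, hB]
    exact D.rootK k
  have hne : D.b 0 ≠ D.b 1 := by
    intro h
    have h1 := congrArg φ h
    rw [hφ, hφ] at h1
    have := D.inj h1
    exact absurd this (by decide)
  have hH : B 0 ^ 4 + B 0 ^ 3 * B 1 + B 0 ^ 2 * B 1 ^ 2 + B 0 * B 1 ^ 3 + B 1 ^ 4 - 4 = 0 := by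
    apply hinj
    simp only [map_add, map_sub, map_mul, map_pow, map_ofNat, map_zero, hB]
    have h1 : (D.b 0 - D.b 1) * (D.b 0 ^ 4 + D.b 0 ^ 3 * D.b 1 + D.b 0 ^ 2 * D.b 1 ^ 2 +
        D.b 0 * D.b 1 ^ 3 + D.b 1 ^ 4 - 4) = 0 := by
      linear_combination D.rootK 0 - D.rootK 1
    rcases mul_eq_zero.1 h1 with h2 | h2
    · exact absurd (sub_eq_zero.1 h2) hne
    · exact h2
  have hrelR : (∏ i, (B 0 + (nn i : R)) ^ (m i).toNat) * (∏ i, (B 1 + (nn i : R)) ^ (-m i).toNat) =
      (∏ i, (B 1 + (nn i : R)) ^ (m i).toNat) * (∏ i, (B 0 + (nn i : R)) ^ (-m i).toNat) := by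
    apply hinj
    simp only [map_mul, map_prod, map_pow, map_add, map_intCast, hB]
    exact hrel2
  have hprime : I.IsPrime := hI.isPrime
  let q : R →+* R ⧸ I := Ideal.Quotient.mk I
  refine fieldcase (Q := R ⧸ I) (q (B 0)) (q (B 1)) ?_ ?_ ?_ (fun i => (m i).toNat)
    (fun i => (-m i).toNat) ?_ j ?_ ?_ ?_
  · have := congrArg q (hroot 0)
    simpa only [map_add, map_sub, map_mul, map_pow, map_ofNat, map_zero] using this
  · have := congrArg q (hroot 1)
    simpa only [map_add, map_sub, map_mul, map_pow, map_ofNat, map_zero] using this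
  · have := congrArg q hH
    simpa only [map_add, map_sub, map_mul, map_pow, map_ofNat, map_zero] using this
  · intro i
    omega
  · omega
  · have := Ideal.Quotient.eq_zero_iff_mem.2 hmem
    have h2 : q (B 0 + (nn j : R)) = 0 := this
    rwa [map_add, map_intCast] at h2
  · have := congrArg q hrelR
    simpa only [map_mul, map_prod, map_pow, map_add, map_intCast] using this

theorem t_INDEP : S_INDEP := by
  intro K _ _ D m hrel
  by_contra hne
  obtain ⟨j, hj⟩ := Function.ne_iff.1 hne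
  rcases lt_or_gt_of_ne hj with h | h
  · refine core D (fun i => -m i) ?_ j (by simpa using h)
    simp only [zpow_neg, Finset.prod_inv_distrib]
    rw [hrel]
  · exact core D m hrel j h

end Pool.Agent.W654.CLINDEP
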