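import Mathlib

set_option autoImplicit false

/-!
# Sequences of characters that converge nowhere trivially
-/

namespace Pool.Agent.W654.Div

open Filter Topology Set MeasureTheory

/-- a pointwise convergent sequence of characters of a compact group is eventually constant -/
theorem eventually_const {K : Type*} [AddCommGroup K] [TopologicalSpace K]
    [IsTopologicalAddGroup K] [CompactSpace K] (χ : ℕ → K →+ UnitAddCircle)
    (hc : ∀ n, Continuous (χ n))
    (hconv : ∀ y, ∃ t, Tendsto (fun n => χ n y) atTop (𝓝 t)) :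
    ∃ N, ∀ n ≥ N, χ n = χ N := by
  classical
  by_contra hcon
  push Not at hcon
  choose φ hφ hne using hcon
  let _ : MeasurableSpace K := borel K
  have _ : BorelSpace K := ⟨rfl⟩
  let μ : Measure K := Measure.addHaar
  let g : ℕ → K → ℂ := fun N y => (AddCircle.toCircle (χ (φ N) y - χ N y) : ℂ)
  have hgc : ∀ N, Continuous (g N) := by
    intro N
    have h1 : Continuous fun y => χ (φ N) y - χ N y := (hc _).sub (hc _)
    exact continuous_subtype_val.comp (AddCircle.continuous_toCircle.comp h1)
  have hint : ∀ N, ∫ y, g N y ∂μ = 0 := by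
    intro N
    obtain ⟨a, ha⟩ : ∃ a, χ (φ N) a ≠ χ N a := by
      by_contra h
      push Not at h
      exact hne N (AddMonoidHom.ext h)
    have h1 : ∫ y, g N (y + a) ∂μ = ∫ y, g N y ∂μ := integral_add_right_eq_self _ a
    have h2 : ∀ y, g N (y + a) = (AddCircle.toCircle (χ (φ N) a - χ N a) : ℂ) * g N y := by
      intro y
      simp only [g]
      rw [map_add, map_add, add_sub_add_comm, AddCircle.toCircle_add, Circle.coe_mul, mul_comm]
    simp only [h2] at h1
    rw [integral_const_mul] at h1
    have h3 : (AddCircle.toCircle (χ (φ N) a - χ N a) : ℂ) ≠ 1 := by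
      intro h
      have h4 : AddCircle.toCircle (χ (φ N) a - χ N a) = AddCircle.toCircle (0 : UnitAddCircle) := by
        rw [AddCircle.toCircle_zero]
        exact Subtype.ext h
      exact ha (sub_eq_zero.1 (AddCircle.injective_toCircle one_ne_zero h4))
    by_contra h5
    exact h3 (mul_right_cancel₀ h5 (by rw [h1, one_mul]))
  have hlim : Tendsto (fun N => ∫ y, g N y ∂μ) atTop (𝓝 (∫ _ : K, (1 : ℂ) ∂μ)) := by
    refine tendsto_integral_of_dominated_convergence (fun _ => 1) ?_ ?_ ?_ ?_
    · intro N
      exact (hgc N).aestronglyMeasurable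
    · exact integrable_const _
    · intro N
      refine Eventually.of_forall fun y => ?_
      exact (Circle.norm_coe _).le
    · refine Eventually.of_forall fun y => ?_
      obtain ⟨t, ht⟩ := hconv y
      have hφt : Tendsto φ atTop atTop := tendsto_atTop_mono hφ tendsto_id
      have h1 : Tendsto (fun N => χ (φ N) y - χ N y) atTop (𝓝 (t - t)) :=
        (ht.comp hφt).sub ht
      rw [sub_self] at h1
      have h2 : Tendsto (fun x : UnitAddCircle => (AddCircle.toCircle x : ℂ)) (𝓝 0) (𝓝 1) := by
        have h3 : Continuous (fun x : UnitAddCircle => (AddCircle.toCircle x : ℂ)) :=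
          continuous_subtype_val.comp AddCircle.continuous_toCircle
        have h4 := h3.tendsto 0
        simpa [AddCircle.toCircle_zero] using h4
      exact h2.comp h1
  simp only [hint] at hlim
  have h0 := tendsto_nhds_unique hlim tendsto_const_nhds
  rw [integral_const] at h0
  have h6 : μ.real univ ≠ 0 := by
    rw [measureReal_def, ENNReal.toReal_ne_zero]
    exact ⟨(isOpen_univ.measure_pos μ ⟨0, mem_univ _⟩).ne', measure_ne_top μ _⟩
  apply h6
  have : ((μ.real univ : ℝ) : ℂ) = 0 := by simpa using h0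
  exact_mod_cast this

theorem exists_div {Λ : Type*} (E : ℕ → Submodule ℚ ℝ) (hE : ∀ x : ℝ, ∃ m, ∀ k ≥ m, x ∈ E k)
    (σ : ℕ → (Λ →₀ ℤ)) (hσ : ¬ ∃ N, ∀ n ≥ N, σ n = σ N) :
    ∃ (m : ℕ) (y : Λ → ℝ), (1 : ℝ) ∈ E m ∧ (∀ α, y α ∈ E m) ∧
      ¬ ∃ t : UnitAddCircle, Tendsto (fun n => (σ n).sum fun α c =>
        c • ((y α : ℝ) : UnitAddCircle)) atTop (𝓝 t) := by
  classical
  obtain ⟨m1, hm1⟩ := hE 1
  by_cases hcase : ∃ α, ¬ ∃ N, ∀ n ≥ N, σ n α = σ N α
  · obtain ⟨α, hα⟩ := hcase
    obtain ⟨x, hx⟩ : ∃ x : UnitAddCircle, ¬ ∃ t, Tendsto (fun n => σ n α • x) atTop (𝓝 t) := by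
      by_contra hcon
      push Not at hcon
      apply hα
      obtain ⟨N, hN⟩ := eventually_const
        (fun n => (zsmulAddGroupHom (σ n α) : UnitAddCircle →+ UnitAddCircle))
        (fun n => continuous_zsmul (σ n α)) hcon
      refine ⟨N, fun n hn => ?_⟩
      have h1 := hN n hn
      by_contra hne
      -- a nonzero integer does not kill the circle
      have h2 : ∀ x : UnitAddCircle, (σ n α - σ N α) • x = 0 := by
        intro x
        rw [sub_smul, sub_eq_zero]
        exact DFunLike.congr_fun h1 x
      have h3 : σ n α - σ N α ≠ 0 := sub_ne_zero.2 hne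
      have h4 := h2 (((1 / (2 * (σ n α - σ N α)) : ℝ)) : UnitAddCircle)
      rw [← AddCircle.coe_zsmul, AddCircle.coe_eq_zero_iff] at h4
      obtain ⟨l, hl⟩ := h4
      have h5 : ((σ n α - σ N α : ℤ) : ℝ) ≠ 0 := by exact_mod_cast h3
      rw [zsmul_eq_mul, zsmul_eq_mul, mul_one] at hl
      have h6 : ((σ n α - σ N α : ℤ) : ℝ) * (1 / (2 * (σ n α - σ N α)) : ℝ) = 1 / 2 := by
        push_cast at h5 ⊢
        field_simp
      rw [h6] at hl
      have h7 : (2 * l : ℝ) = 1 := by linarith
      have h8 : 2 * l = 1 := by exact_mod_cast h7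
      omega
    obtain ⟨x', rfl⟩ := QuotientAddGroup.mk_surjective x
    obtain ⟨m2, hm2⟩ := hE x'
    refine ⟨max m1 m2, fun β => if β = α then x' else 0, hm1 _ (le_max_left _ _), ?_, ?_⟩
    · intro β
      by_cases h : β = α
      · simp only [h, if_true]; exact hm2 _ (le_max_right _ _)
      · simp only [h, if_false]; exact (E _).zero_mem
    · rintro ⟨t, ht⟩
      refine hx ⟨t, ht.congr fun n => ?_⟩
      rw [Finsupp.sum]
      by_cases hs : α ∈ (σ n).support
      · rw [Finset.sum_eq_single α]
        · simp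
        · intro β _ hβ
          simp [hβ]
        · intro h; exact absurd hs h
      · have h0 : σ n α = 0 := Finsupp.notMem_support_iff.1 hs
        rw [h0, zero_smul]
        refine Finset.sum_eq_zero fun β hβ => ?_
        have : β ≠ α := fun h => hs (h ▸ hβ)
        simp [this]
  · push Not at hcase
    -- bounds of the coordinates
    have hb : ∀ α, ∃ q : ℕ, 0 < q ∧ ∀ n m, σ n α ≠ σ m α → ¬ (q : ℤ) ∣ σ n α - σ m α := by
      intro α
      obtain ⟨N, hN⟩ := hcase α
      obtain ⟨B, hB⟩ : ∃ B : ℕ, ∀ n, (σ n α).natAbs ≤ B := by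
        refine ⟨(Finset.range (N + 1)).sup fun n => (σ n α).natAbs, fun n => ?_⟩
        rcases le_or_gt n N with h | h
        · exact Finset.le_sup (f := fun n => (σ n α).natAbs) (Finset.mem_range.2 (by omega))
        · rw [hN n h.le]
          exact Finset.le_sup (f := fun n => (σ n α).natAbs) (Finset.mem_range.2 (by omega))
      refine ⟨2 * B + 1, by omega, fun n m hne hdvd => ?_⟩
      have h1 := hB n
      have h2 := hB m
      have h3 : σ n α - σ m α ≠ 0 := sub_ne_zero.2 hne
      have h4 := Int.le_of_dvd (abs_pos.2 h3) ((dvd_abs _ _).2 hdvd)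
      rw [Int.abs_eq_natAbs] at h4
      omega
    choose q hq hqd using hb
    have hne : ∀ α, NeZero (q α) := fun α => ⟨(hq α).ne'⟩
    let ev : (Λ →₀ ℤ) → ((∀ α, ZMod (q α)) →+ UnitAddCircle) := fun s =>
      ∑ α ∈ s.support, s α • ((ZMod.toAddCircle (N := q α)).comp
        (Pi.evalAddMonoidHom (fun α => ZMod (q α)) α))
    have hev : ∀ s (y : ∀ α, ZMod (q α)), ev s y =
        s.sum fun α c => c • (ZMod.toAddCircle (y α) : UnitAddCircle) := by
      intro s y
      simp only [ev, AddMonoidHom.finsetSum_apply, Finsupp.sum]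
      rfl
    let _ : ∀ α, TopologicalSpace (ZMod (q α)) := fun α => ⊥
    have _ : ∀ α, DiscreteTopology (ZMod (q α)) := fun α => ⟨rfl⟩
    have hcont : ∀ s, Continuous (ev s) := by
      intro s
      have : (ev s : (∀ α, ZMod (q α)) → UnitAddCircle) = fun y => ∑ α ∈ s.support,
          s α • (ZMod.toAddCircle (y α) : UnitAddCircle) := by
        funext y
        exact hev s y
      rw [this]
      refine continuous_finset_sum _ fun α _ => ?_
      have h1 : Continuous (fun z : ZMod (q α) => s α • (ZMod.toAddCircle z : UnitAddCircle)) :=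
        continuous_of_discreteTopology
      exact h1.comp (continuous_apply α)
    by_contra hcon
    push Not at hcon
    apply hσ
    obtain ⟨N, hN⟩ := eventually_const (fun n => ev (σ n)) (fun n => hcont (σ n)) (by
      intro y
      obtain ⟨t, ht⟩ := hcon m1 (fun α => ((y α).val : ℝ) / q α) (hm1 _ le_rfl) (by
        intro α
        have h1 : ((y α).val : ℝ) / q α = (((y α).val : ℚ) / q α) • (1 : ℝ) := by
          rw [Rat.smul_def]; push_cast; ring
        rw [h1]
        exact (E m1).smul_mem _ (hm1 _ le_rfl))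
      refine ⟨t, ht.congr fun n => ?_⟩
      rw [hev]
      refine Finset.sum_congr rfl fun α _ => ?_
      show σ n α • _ = σ n α • _
      rw [ZMod.toAddCircle_apply])
    refine ⟨N, fun n hn => ?_⟩
    ext α
    by_contra hα
    apply hqd α n N hα
    have h1 := DFunLike.congr_fun (hN n hn) (Pi.single α 1)
    have h2 : ∀ s : Λ →₀ ℤ, ev s (Pi.single α 1) =
        ZMod.toAddCircle (s α : ZMod (q α)) := by
      intro s
      rw [hev, Finsupp.sum]
      by_cases hs : α ∈ s.support
      · rw [Finset.sum_eq_single α]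
        · rw [Pi.single_eq_same, ← map_zsmul]
          congr 1
          simp
        · intro β _ hβ
          rw [Pi.single_eq_of_ne hβ, map_zero, smul_zero]
        · intro h; exact absurd hs h
      · rw [Finsupp.notMem_support_iff.1 hs, Int.cast_zero, map_zero]
        refine Finset.sum_eq_zero fun β hβ => ?_
        have : β ≠ α := fun h => hs (h ▸ hβ)
        rw [Pi.single_eq_of_ne this, map_zero, smul_zero]
    rw [h2, h2] at h1
    have h3 := (ZMod.toAddCircle_injective (q α)) h1
    rw [← sub_eq_zero, ← Int.cast_sub, ZMod.intCast_zmod_eq_zero_iff_dvd] at h3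
    exact h3

end Pool.Agent.W654.Div
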