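import Pool.Agent.W840.FeigeMain
import Pool.Agent.W455.EM.Stm

/-!
Subtask EM-POT2 (owner helper455, MP_b96e21_co): the potential argument of
`Pool.Agent.W840.FeigeCore.potential` started at one variable.
-/

set_option autoImplicit false
open Finset

namespace Pool.Agent.W654.EMPOT2

open Pool.Agent.W840.FeigeCore

variable {ι : Type*} [DecidableEq ι] {q a : ι → ℝ}

theorem base (hMON : Pool.Agent.W455.EM.S_MON) {T m0 : ℝ} (hT : 1 < T) (i : ι)
    (hi : a i < T) (hm : m0 ≤ q i * a i) (hM : q i * a i ≤ T - 1) (ha : 0 < a i) :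
    (1 - 1 / (T - m0)) ^ (T - 1 - m0)
      ≤ U q a T {i} * (1 - 1 / (G q a T {i} / U q a T {i})) ^ (T - 1 - ∑ j ∈ {i}, q j * a j) := by
  have e : ({i} : Finset ι) = insert i ∅ := rfl
  have hn : i ∉ (∅ : Finset ι) := Finset.notMem_empty i
  have h1 : U q a T {i} = 1 := by
    unfold U
    rw [e, E_insert q a hn, E_empty, E_empty]
    unfold ind
    rw [if_pos (by linarith), zero_add, if_pos hi]
    ring
  have h2 : G q a T {i} = T - q i * a i := by
    unfold G
    rw [e, E_insert q a hn, E_empty, E_empty]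
    unfold pos
    rw [max_eq_left (by linarith), zero_add, max_eq_left (by linarith)]
    ring
  rw [h1, h2, Finset.sum_singleton, one_mul, div_one]
  rcases hm.eq_or_lt with h | h
  · rw [← h]
  · have h3 := hMON (T - q i * a i) (T - m0) (by linarith) (by linarith)
    have e1 : T - m0 - 1 = T - 1 - m0 := by ring
    have e2 : T - q i * a i - 1 = T - 1 - q i * a i := by ring
    rw [e1, e2] at h3
    exact h3.le

theorem potential2 (hMON : Pool.Agent.W455.EM.S_MON) (hq : ∀ i, 0 < q i ∧ q i < 1)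
    (ha : ∀ i, 0 < a i) (hμ : ∀ i, q i * a i ≤ 1)
    {T m0 : ℝ} (hT : 1 < T) : ∀ (k : ℕ) (s : Finset ι), s.card = k + 1 →
      (∀ i ∈ s, a i < T ∧ m0 ≤ q i * a i) →
      ∑ i ∈ s, q i * a i ≤ T - 1 →
      (1 - 1 / (T - m0)) ^ (T - 1 - m0)
        ≤ U q a T s * (1 - 1 / (G q a T s / U q a T s)) ^ (T - 1 - ∑ i ∈ s, q i * a i) := by
  intro k
  induction k with
  | zero =>
    intro s hs hall hM
    rw [zero_add, Finset.card_eq_one] at hs
    obtain ⟨i, rfl⟩ := hs
    have h := hall i (Finset.mem_singleton_self i)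
    rw [Finset.sum_singleton] at hM
    exact base hMON hT i h.1 h.2 hM (ha i)
  | succ k ih =>
    intro s hs hall hM
    have hne : s.Nonempty := by
      rw [← Finset.card_pos]; omega
    have hT0 : 0 < T := by linarith
    have hU := U_pos (a := a) hq hT0 s
    obtain ⟨i, hi, hgood⟩ := exists_good hq ha T s hne hU
    have hU' := U_pos (a := a) hq hT0 (s.erase i)
    have hcard : (s.erase i).card = k + 1 := by
      rw [Finset.card_erase_of_mem hi]; omega
    have hsum : ∑ j ∈ s.erase i, q j * a j + q i * a i = ∑ j ∈ s, q j * a j :=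
      Finset.sum_erase_add s _ hi
    have hμ0 : 0 < q i * a i := mul_pos (hq i).1 (ha i)
    have hM' : ∑ j ∈ s.erase i, q j * a j ≤ T - 1 := by linarith
    have hIH := ih (s.erase i) hcard (fun j hj => hall j (Finset.mem_of_mem_erase hj)) hM'
    set ρ := T - 1 - ∑ j ∈ s, q j * a j with hρdef
    set u := U q a T s with hu
    set g := G q a T s with hg
    set u' := U q a T (s.erase i) with hu'
    set g' := G q a T (s.erase i) with hg'
    set μ := q i * a i with hμdef
    have hρ : 0 ≤ ρ := by rw [hρdef]; linarith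
    have hexp : T - 1 - ∑ j ∈ s.erase i, q j * a j = ρ + μ := by
      rw [hρdef]; linarith
    rw [hexp] at hIH
    have hge : 1 + ρ ≤ g := by
      have := G_ge (a := a) hq T s
      rw [hρdef]; linarith
    have hge' : 1 + ρ + μ ≤ g' := by
      have := G_ge (a := a) hq T (s.erase i)
      rw [hρdef]; linarith
    have hu1 : u ≤ 1 := U_le_one hq T s
    have hu1' : u' ≤ 1 := U_le_one hq T (s.erase i)
    have hx : 1 + ρ ≤ g / u := by
      rw [le_div_iff₀ hU]
      nlinarith
    have hy : 1 + ρ + μ ≤ g' / u' := by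
      rw [le_div_iff₀ hU']
      nlinarith
    have hxy : g / u ≤ g' / u' := by
      rw [div_le_div_iff₀ hU hU']
      nlinarith
    have hstep : g' - μ * u' ≤ g := G_step hq ha T s hi
    have hmain := step_ineq hρ hx hxy hμ0.le (hμ i) (by linarith : (1:ℝ) < g' / u')
    have hx0 : 0 < g / u := by linarith
    have hbx : 0 ≤ 1 - 1 / (g / u) := by
      rw [sub_nonneg, div_le_one hx0]; linarith
    have huu : u' * ((g' / u' - μ) / (g / u)) ≤ u := by
      have e1 : u' * ((g' / u' - μ) / (g / u)) = (g' - μ * u') / (g / u) := by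
        field_simp
      rw [e1, div_le_iff₀ hx0]
      have e2 : u * (g / u) = g := by field_simp
      rw [e2]
      exact hstep
    calc (1 - 1 / (T - m0)) ^ (T - 1 - m0) ≤ u' * (1 - 1 / (g' / u')) ^ (ρ + μ) := hIH
      _ ≤ u' * ((g' / u' - μ) / (g / u) * (1 - 1 / (g / u)) ^ ρ) :=
          mul_le_mul_of_nonneg_left hmain hU'.le
      _ = (u' * ((g' / u' - μ) / (g / u))) * (1 - 1 / (g / u)) ^ ρ := by ring
      _ ≤ u * (1 - 1 / (g / u)) ^ ρ :=
          mul_le_mul_of_nonneg_right huu (Real.rpow_nonneg hbx _)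

/-- Subtask EM-POT2. -/
theorem pot2 (hMON : Pool.Agent.W455.EM.S_MON) (hq : ∀ i, 0 < q i ∧ q i < 1)
    (ha : ∀ i, 0 < a i) (hμ : ∀ i, q i * a i ≤ 1) (T m0 : ℝ) (hT : 1 < T) (_h0 : 0 < m0) :
    ∀ s : Finset ι, s.Nonempty → (∀ i ∈ s, a i < T ∧ m0 ≤ q i * a i) →
      ∑ i ∈ s, q i * a i ≤ T - 1 → (1 - 1 / (T - m0)) ^ (T - 1 - m0) ≤ U q a T s := by
  intro s hne hall hM
  have hcard : s.card = (s.card - 1) + 1 := by
    have := Finset.card_pos.mpr hne
    omega
  have h := potential2 (m0 := m0) hMON hq ha hμ hT (s.card - 1) s hcard hall hM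
  have hT0 : 0 < T := by linarith
  have hU := U_pos (a := a) hq hT0 s
  have hge : T - ∑ j ∈ s, q j * a j ≤ G q a T s := G_ge (a := a) hq T s
  have hu1 : U q a T s ≤ 1 := U_le_one hq T s
  have hx : 1 ≤ G q a T s / U q a T s := by
    rw [le_div_iff₀ hU]
    linarith
  have hx0 : 0 < G q a T s / U q a T s := by linarith
  have hb0 : 0 ≤ 1 - 1 / (G q a T s / U q a T s) := by
    rw [sub_nonneg, div_le_one hx0]; linarith
  have hb1 : 1 - 1 / (G q a T s / U q a T s) ≤ 1 := by
    have : 0 ≤ 1 / (G q a T s / U q a T s) := by positivity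
    linarith
  have h2 : (1 - 1 / (G q a T s / U q a T s)) ^ (T - 1 - ∑ i ∈ s, q i * a i) ≤ 1 :=
    Real.rpow_le_one hb0 hb1 (by linarith)
  calc (1 - 1 / (T - m0)) ^ (T - 1 - m0) ≤ _ := h
    _ ≤ U q a T s * 1 := mul_le_mul_of_nonneg_left h2 hU.le
    _ = _ := mul_one _

end Pool.Agent.W654.EMPOT2
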