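import Pool.Agent.W654.Grp

set_option autoImplicit false

/-!
# Existence of the generic matrix, and the example
-/

namespace Pool.Agent.W654.Ex

open Filter Topology Set Cardinal

/-- index set of the generators: prescribed values on a countable set of coordinates -/
abbrev Lam : Type := (ℕ → ℝ) × (ℕ → UnitAddCircle)

/-- sequences of formal combinations of generators -/
abbrev Sq : Type := ℕ → (Lam →₀ ℤ)

theorem mk_circle_le : #UnitAddCircle ≤ 𝔠 := by
  rw [← Cardinal.mk_real]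
  exact mk_le_of_surjective (f := fun x : ℝ => (x : UnitAddCircle)) QuotientAddGroup.mk_surjective

theorem mk_Lam : #Lam = 𝔠 := by
  apply le_antisymm
  · have h1 : #(ℕ → ℝ) = 𝔠 := by
      rw [← Cardinal.power_def, Cardinal.mk_real, Cardinal.mk_nat, Cardinal.continuum_power_aleph0]
    have h2 : #(ℕ → UnitAddCircle) ≤ 𝔠 := by
      rw [← Cardinal.power_def, Cardinal.mk_nat]
      calc #UnitAddCircle ^ ℵ₀ ≤ 𝔠 ^ ℵ₀ := Cardinal.power_le_power_right mk_circle_le
        _ = 𝔠 := Cardinal.continuum_power_aleph0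
    rw [Cardinal.mk_prod, Cardinal.lift_id, Cardinal.lift_id, h1]
    calc 𝔠 * #(ℕ → UnitAddCircle) ≤ 𝔠 * 𝔠 := mul_le_mul' le_rfl h2
      _ = 𝔠 := Cardinal.continuum_mul_self
  · rw [← Cardinal.mk_real]
    exact mk_le_of_injective (f := fun x : ℝ => ((fun _ => x, fun _ => 0) : Lam)) (by
      intro x y hxy
      have := congrArg (fun p : Lam => p.1 0) hxy
      exact this)

theorem mk_Sq : #Sq = 𝔠 := by
  have h1 : #(Lam →₀ ℤ) = 𝔠 := by
    have hinf : Infinite Lam := by
      rw [Cardinal.infinite_iff, mk_Lam]; exact Cardinal.aleph0_le_continuum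
    rw [Cardinal.mk_finsupp_lift_of_infinite, mk_Lam]
    simp [Cardinal.aleph0_le_continuum]
  rw [← Cardinal.power_def, h1, Cardinal.mk_nat, Cardinal.continuum_power_aleph0]

theorem exists_tau : ∃ τ : ℝ → Sq, ∀ (σ : Sq) (B : Set ℝ), B.Countable → ∃ i, i ∉ B ∧ τ i = σ := by
  have h : #ℝ = #(Sq × ℝ) := by
    rw [Cardinal.mk_prod, Cardinal.lift_id, Cardinal.lift_id, mk_Sq, Cardinal.mk_real,
      Cardinal.continuum_mul_self]
  obtain ⟨e⟩ := Cardinal.eq.1 h
  refine ⟨fun i => (e i).1, fun σ B hB => ?_⟩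
  by_contra hcon
  push Not at hcon
  have hinj : Function.Injective fun x : ℝ => e.symm (σ, x) := by
    intro x y hxy
    have := e.symm.injective hxy
    exact (Prod.mk.inj this).2
  have hsub : range (fun x : ℝ => e.symm (σ, x)) ⊆ B := by
    rintro _ ⟨x, rfl⟩
    by_contra hx
    exact hcon _ hx (by simp)
  have h1 : (range (fun x : ℝ => e.symm (σ, x))).Countable := hB.mono hsub
  have h2 : (univ : Set ℝ).Countable := by
    rw [← image_univ] at h1
    exact Set.countable_of_injective_of_countable_image hinj.injOn h1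
  exact Set.not_countable_univ h2

theorem exists_basis : Nonempty (Module.Basis (ℕ × (Lam × ℝ)) ℚ ℝ) := by
  let B := Module.Basis.ofVectorSpace ℚ ℝ
  have hcard : #(Module.Basis.ofVectorSpaceIndex ℚ ℝ) = 𝔠 := by
    rw [← Real.rank_rat_real, ← B.mk_eq_rank'']
  have h2 : #(ℕ × (Lam × ℝ)) = 𝔠 := by
    rw [Cardinal.mk_prod, Cardinal.mk_prod, Cardinal.lift_id, Cardinal.lift_id, Cardinal.lift_id,
      Cardinal.lift_id, mk_Lam, Cardinal.mk_real, Cardinal.mk_nat, Cardinal.continuum_mul_self,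
      Cardinal.aleph0_mul_continuum]
  obtain ⟨e⟩ := Cardinal.eq.1 (hcard.trans h2.symm)
  exact ⟨B.reindex e⟩

section gen

variable (bs : Module.Basis (ℕ × (Lam × ℝ)) ℚ ℝ)

/-- reals whose coordinates of level above `m` vanish -/
noncomputable def E (m : ℕ) : Submodule ℚ ℝ where
  carrier := {x | ∀ p : ℕ × (Lam × ℝ), m < p.1 → bs.repr x p = 0}
  add_mem' := by
    intro x y hx hy p hp
    rw [map_add, Finsupp.add_apply, hx p hp, hy p hp, add_zero]
  zero_mem' := by
    intro p _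
    rw [map_zero, Finsupp.zero_apply]
  smul_mem' := by
    intro c x hx p hp
    rw [map_smul, Finsupp.smul_apply, hx p hp, smul_zero]

theorem mem_E {m : ℕ} {x : ℝ} : x ∈ E bs m ↔ ∀ p : ℕ × (Lam × ℝ), m < p.1 → bs.repr x p = 0 :=
  Iff.rfl

theorem E_mono {m k : ℕ} (h : m ≤ k) : E bs m ≤ E bs k := fun _ hx p hp => hx p (h.trans_lt hp)

theorem exists_E (x : ℝ) : ∃ m, ∀ k ≥ m, x ∈ E bs k := by
  classical
  refine ⟨(bs.repr x).support.sup fun p => p.1, fun k hk p hp => ?_⟩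
  by_contra hne
  have := Finset.le_sup (f := fun p : ℕ × (Lam × ℝ) => p.1) (Finsupp.mem_support_iff.2 hne)
  omega

end gen

theorem exists_h : ∃ h : Lam → ℝ → UnitAddCircle,
    (∀ k : Lam × ℝ →₀ ℤ, (k.sum fun p c => c • h p.1 p.2) = 0 → k = 0) ∧
    (∀ σ : ℕ → (Lam →₀ ℤ), (¬ ∃ N, ∀ n ≥ N, σ n = σ N) →
      ∃ i, (∀ n, ∀ α ∈ (σ n).support, i ∉ range α.1) ∧
        ¬ ∃ t, Tendsto (fun n => (σ n).sum fun α c => c • h α i) atTop (𝓝 t)) := by
  classical
  obtain ⟨bs⟩ := exists_basis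
  obtain ⟨τ, hτ⟩ := exists_tau
  have hdata : ∀ σ : Sq, ∃ (m : ℕ) (y : Lam → ℝ), (1 : ℝ) ∈ E bs m ∧ (∀ α, y α ∈ E bs m) ∧
      ((¬ ∃ N, ∀ n ≥ N, σ n = σ N) → ¬ ∃ t : UnitAddCircle, Tendsto (fun n => (σ n).sum fun α c =>
        c • ((y α : ℝ) : UnitAddCircle)) atTop (𝓝 t)) := by
    intro σ
    by_cases hσ : ∃ N, ∀ n ≥ N, σ n = σ N
    · obtain ⟨m, hm⟩ := exists_E bs 1
      exact ⟨m, 0, hm m le_rfl, fun α => (E bs m).zero_mem, fun h => absurd hσ h⟩
    · obtain ⟨m, y, h1, h2, h3⟩ := Div.exists_div (E bs) (exists_E bs) σ hσ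
      exact ⟨m, y, h1, h2, fun _ => h3⟩
  choose mm yy h1m hyy hdiv using hdata
  let e0 : Lam × ℝ → ℝ := fun p => bs (mm (τ p.2) + 1, p)
  let c0 : Lam × ℝ → ℝ := fun p =>
    if ∃ t : UnitAddCircle, Tendsto (fun n => (τ p.2 n).sum fun α c =>
      c • ((e0 (α, p.2) : ℝ) : UnitAddCircle)) atTop (𝓝 t) then yy (τ p.2) p.1 else 0
  have hc0 : ∀ p, c0 p ∈ E bs (mm (τ p.2)) := by
    intro p
    simp only [c0]
    split_ifs
    · exact hyy _ _
    · exact (E bs _).zero_mem
  refine ⟨fun α i => ((e0 (α, i) + c0 (α, i) : ℝ) : UnitAddCircle), ?_, ?_⟩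
  · intro k hk
    by_contra hk0
    have hne : k.support.Nonempty := Finsupp.support_nonempty_iff.2 hk0
    obtain ⟨w, hw, hmax⟩ := k.support.exists_max_image (fun p => mm (τ p.2)) hne
    have h1 : ((∑ p ∈ k.support, (k p : ℝ) * (e0 p + c0 p) : ℝ) : UnitAddCircle) = 0 := by
      rw [← hk, Finsupp.sum]
      have h2 : ∀ x : ℝ, (x : UnitAddCircle) = QuotientAddGroup.mk' (AddSubgroup.zmultiples (1 : ℝ)) x :=
        fun x => rfl
      rw [h2, map_sum]
      refine Finset.sum_congr rfl fun p _ => ?_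
      rw [← h2, ← zsmul_eq_mul, AddCircle.coe_zsmul]
    rw [AddCircle.coe_eq_zero_iff] at h1
    obtain ⟨l, hl⟩ := h1
    have h3 := congrArg (fun x => bs.repr x (mm (τ w.2) + 1, w)) hl
    have hl1 : (l • (1 : ℝ)) ∈ E bs (mm (τ w.2)) := (E bs _).toAddSubgroup.zsmul_mem (h1m _) l
    change bs.repr (l • (1 : ℝ)) (mm (τ w.2) + 1, w) = bs.repr (∑ p ∈ k.support, (k p : ℝ) * (e0 p + c0 p)) (mm (τ w.2) + 1, w) at h3
    rw [hl1 _ (by simp), map_sum, Finsupp.finsetSum_apply] at h3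
    have h4 : ∀ p ∈ k.support, bs.repr ((k p : ℝ) * (e0 p + c0 p)) (mm (τ w.2) + 1, w) =
        if p = w then (k p : ℚ) else 0 := by
      intro p hp
      have e1 : (k p : ℝ) * (e0 p + c0 p) = ((k p : ℤ) : ℚ) • (e0 p + c0 p) := by
        rw [Rat.smul_def]; push_cast; rfl
      rw [e1, map_smul, Finsupp.smul_apply, map_add, Finsupp.add_apply]
      have e2 : bs.repr (c0 p) (mm (τ w.2) + 1, w) = 0 :=
        E_mono bs (hmax p hp) (hc0 p) _ (by simp)
      rw [e2, add_zero]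
      simp only [e0, Module.Basis.repr_self]
      by_cases hpw : p = w
      · subst hpw
        rw [Finsupp.single_eq_same]
        simp
      · rw [Finsupp.single_eq_of_ne, smul_zero, if_neg hpw]
        intro h
        exact hpw (Prod.mk.inj h).2.symm
    rw [Finset.sum_congr rfl h4, Finset.sum_ite_eq' k.support w, if_pos hw] at h3
    have h5 : k w = 0 := by exact_mod_cast h3.symm
    exact (Finsupp.mem_support_iff.1 hw) h5
  · intro σ hσ
    have hcount : (⋃ n, ⋃ α ∈ (σ n).support, range α.1).Countable :=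
      countable_iUnion fun n => Set.Countable.biUnion (σ n).support.countable_toSet
        fun α _ => countable_range _
    obtain ⟨i, hiB, hi⟩ := hτ σ _ hcount
    refine ⟨i, fun n α hα hmem => hiB (mem_iUnion.2 ⟨n, mem_iUnion₂.2 ⟨α, hα, hmem⟩⟩), ?_⟩
    rintro ⟨t, ht⟩
    by_cases hcase : ∃ t : UnitAddCircle, Tendsto (fun n => (σ n).sum fun α c =>
      c • ((e0 (α, i) : ℝ) : UnitAddCircle)) atTop (𝓝 t)
    · obtain ⟨s, hs⟩ := hcase
      refine hdiv σ hσ ⟨t - s, (ht.sub hs).congr fun n => ?_⟩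
      rw [Finsupp.sum, Finsupp.sum, Finsupp.sum, ← Finset.sum_sub_distrib]
      refine Finset.sum_congr rfl fun α _ => ?_
      have : c0 (α, i) = yy σ α := by
        simp only [c0, hi]
        rw [if_pos ⟨s, hs⟩]
      show (σ n) α • ((e0 (α, i) + c0 (α, i) : ℝ) : UnitAddCircle) - (σ n) α • ((e0 (α, i) : ℝ) : UnitAddCircle) = _
      rw [this, AddCircle.coe_add, smul_add, add_sub_cancel_left]
    · refine hcase ⟨t, ht.congr fun n => ?_⟩
      refine Finset.sum_congr rfl fun α _ => ?_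
      have : c0 (α, i) = 0 := by
        simp only [c0, hi]
        rw [if_neg hcase]
      simp only [this, add_zero]

theorem exists_group : ∃ (G : Type) (_ : AddCommGroup G) (_ : TopologicalSpace G),
    IsTopologicalAddGroup G ∧ T2Space G ∧
    (∀ f : G → ℝ, Continuous f → ∃ C : ℝ, ∀ x, |f x| ≤ C) ∧
    (∀ u : ℕ → G, (∀ U ∈ 𝓝 (0 : G), ∃ N, ∀ m ≥ N, ∀ n ≥ N, u m - u n ∈ U) →
      ∃ x, Tendsto u atTop (𝓝 x)) ∧
    (∀ H : AddSubgroup G, IsClosed (H : Set G) →
      (∃ B : Set (Set H), TopologicalSpace.IsTopologicalBasis B ∧ ∀ s ∈ B, IsClopen s) →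
      DiscreteTopology H) ∧
    ¬ TopologicalSpace.MetrizableSpace G := by
  classical
  obtain ⟨h, hInd, hDiv⟩ := exists_h
  let b : Lam → ℝ → UnitAddCircle := fun α i =>
    if hi : ∃ n, α.1 n = i then α.2 (Classical.choose hi) else h α i
  have hmain := Grp.main (b := b) (fun α => range α.1) (fun α => countable_range _) (by
    intro B hB z
    rcases B.eq_empty_or_nonempty with rfl | hne
    · exact ⟨(fun _ => 0, fun _ => 0), by simp⟩
    · obtain ⟨s, hs⟩ := hB.exists_eq_range hne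
      refine ⟨(s, fun n => z (s n)), fun i hi => ?_⟩
      have hex : ∃ n, s n = i := by rw [hs] at hi; exact hi
      show (if hi : ∃ n, s n = i then z (s (Classical.choose hi)) else _) = z i
      rw [dif_pos hex, Classical.choose_spec hex]) h (by
    intro α i hi
    exact dif_neg (fun hex => hi hex)) hInd hDiv
  exact ⟨Grp.G b, inferInstance, inferInstance, inferInstance, inferInstance, hmain⟩

end Pool.Agent.W654.Ex
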