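import Mathlib

set_option autoImplicit false

/-!
# Subsets of powers of the circle which project onto all countable faces
-/

namespace Pool.Agent.W654.Top

open Filter Topology Set

variable {I : Type*}

/-- every point of the power of the circle is matched by a point of `Y` on every countable set of
coordinates -/
def CP (Y : Set (I → UnitAddCircle)) : Prop :=
  ∀ A : Set I, A.Countable → ∀ z : I → UnitAddCircle, ∃ y ∈ Y, ∀ i ∈ A, y i = z i

/-- nonempty open sets that depend on finitely many coordinates -/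
def Basic (U : Set (I → UnitAddCircle)) : Prop :=
  IsOpen U ∧ U.Nonempty ∧ ∃ F : Finset I, ∀ x y : I → UnitAddCircle,
    (∀ i ∈ F, x i = y i) → x ∈ U → y ∈ U

theorem exists_basic {O : Set (I → UnitAddCircle)} (hO : IsOpen O) {x : I → UnitAddCircle}
    (hx : x ∈ O) : ∃ U ⊆ O, x ∈ U ∧ Basic U := by
  obtain ⟨F, u, hu, hsub⟩ := isOpen_pi_iff.1 hO x hx
  refine ⟨(F : Set I).pi u, hsub, fun i hi => (hu i hi).2, ?_, ⟨x, fun i hi => (hu i hi).2⟩, F, ?_⟩
  · exact isOpen_set_pi F.finite_toSet fun i hi => (hu i hi).1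
  · intro y z hyz hy i hi
    rw [← hyz i hi]
    exact hy i hi

theorem countable_disjoint (C : Set (Set (I → UnitAddCircle)))
    (hC : ∀ U ∈ C, IsOpen U ∧ U.Nonempty) (hd : C.PairwiseDisjoint id) : C.Countable := by
  classical
  letI : MeasurableSpace (I → UnitAddCircle) := borel _
  haveI : BorelSpace (I → UnitAddCircle) := ⟨rfl⟩
  let μ : MeasureTheory.Measure (I → UnitAddCircle) := MeasureTheory.Measure.addHaar
  have h := MeasureTheory.Measure.countable_meas_pos_of_disjoint_iUnion (μ := μ)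
    (As := fun U : C => (U : Set (I → UnitAddCircle))) (fun U => (hC U.1 U.2).1.measurableSet)
    (fun U V hUV => hd U.2 V.2 (fun h => hUV (Subtype.ext h)))
  have h2 : {i : C | 0 < μ (i : Set (I → UnitAddCircle))} = univ := by
    ext U
    simp only [mem_setOf_eq, mem_univ, iff_true]
    exact (hC U.1 U.2).1.measure_pos μ (hC U.1 U.2).2
  rw [h2] at h
  exact Set.countable_coe_iff.1 (Set.countable_univ_iff.1 h)

/-- the closure of an open set depends on countably many coordinates -/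
theorem closure_dep {O : Set (I → UnitAddCircle)} (hO : IsOpen O) :
    ∃ A : Set I, A.Countable ∧ ∀ x y : I → UnitAddCircle,
      (∀ i ∈ A, x i = y i) → x ∈ closure O → y ∈ closure O := by
  classical
  let S : Set (Set (Set (I → UnitAddCircle))) :=
    {C | (∀ U ∈ C, Basic U ∧ U ⊆ O) ∧ C.PairwiseDisjoint id}
  obtain ⟨C, hC⟩ : ∃ C, Maximal (· ∈ S) C := by
    refine zorn_subset S fun c hc hchain => ?_
    refine ⟨⋃₀ c, ⟨?_, ?_⟩, fun s hs => subset_sUnion_of_mem hs⟩
    · rintro U ⟨s, hs, hUs⟩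
      exact (hc hs).1 U hUs
    · rintro U ⟨s, hs, hUs⟩ V ⟨t, ht, hVt⟩ hUV
      rcases hchain.total hs ht with h | h
      · exact (hc ht).2 (h hUs) hVt hUV
      · exact (hc hs).2 hUs (h hVt) hUV
  have hCS := hC.prop
  have hcount : C.Countable := countable_disjoint C (fun U hU => ⟨(hCS.1 U hU).1.1,
    (hCS.1 U hU).1.2.1⟩) hCS.2
  have hF : ∀ U : C, ∃ F : Finset I, ∀ x y : I → UnitAddCircle,
    (∀ i ∈ F, x i = y i) → x ∈ (U : Set (I → UnitAddCircle)) → y ∈ (U : Set (I → UnitAddCircle)) :=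
    fun U => (hCS.1 U.1 U.2).1.2.2
  choose F hF using hF
  haveI : Countable C := hcount.to_subtype
  let W : Set (I → UnitAddCircle) := ⋃₀ C
  have hWO : W ⊆ O := sUnion_subset fun U hU => (hCS.1 U hU).2
  have hOW : O ⊆ closure W := by
    intro x hx
    by_contra hxW
    have hopen : IsOpen (O ∩ (closure W)ᶜ) := hO.inter isClosed_closure.isOpen_compl
    obtain ⟨V, hVsub, hxV, hV⟩ := exists_basic hopen ⟨hx, hxW⟩
    have hVW : ∀ U ∈ C, Disjoint V U := by
      intro U hU
      rw [Set.disjoint_left]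
      intro y hyV hyU
      exact (hVsub hyV).2 (subset_closure ⟨U, hU, hyU⟩)
    have hins : insert V C ∈ S := by
      refine ⟨?_, ?_⟩
      · rintro U (rfl | hU)
        · exact ⟨hV, fun y hy => (hVsub hy).1⟩
        · exact hCS.1 U hU
      · rw [Set.pairwiseDisjoint_insert]
        exact ⟨hCS.2, fun U hU _ => hVW U hU⟩
    have hmem : V ∈ C := hC.le_of_ge hins (subset_insert V C) (mem_insert V C)
    have := hVW V hmem
    rw [Set.disjoint_left] at this
    exact this hxV hxV
  have hcl : closure O = closure W :=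
    subset_antisymm (closure_minimal hOW isClosed_closure) (closure_mono hWO)
  refine ⟨⋃ U : C, (F U : Set I), countable_iUnion fun U => (F U).countable_toSet, ?_⟩
  intro x y hxy hx
  rw [hcl] at hx ⊢
  let φ : (I → UnitAddCircle) → (I → UnitAddCircle) := fun w i =>
    if i ∈ (⋃ U : C, (F U : Set I)) then w i else y i
  have hφc : Continuous φ := by
    refine continuous_pi fun i => ?_
    by_cases hi : i ∈ (⋃ U : C, (F U : Set I))
    · simp only [φ, if_pos hi]; exact continuous_apply i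
    · simp only [φ, if_neg hi]; exact continuous_const
  have hφx : φ x = y := by
    funext i
    by_cases hi : i ∈ (⋃ U : C, (F U : Set I))
    · simp only [φ, if_pos hi]; exact hxy i hi
    · simp only [φ, if_neg hi]
  have hφW : MapsTo φ W W := by
    rintro w ⟨U, hU, hwU⟩
    refine ⟨U, hU, hF ⟨U, hU⟩ w (φ w) ?_ hwU⟩
    intro i hi
    have : i ∈ (⋃ U : C, (F U : Set I)) := mem_iUnion.2 ⟨⟨U, hU⟩, hi⟩
    simp only [φ, if_pos this]
  rw [← hφx]
  exact map_mem_closure hφc hx hφW

theorem CP.meets {Y : Set (I → UnitAddCircle)} (hY : CP Y) {O : Set (I → UnitAddCircle)}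
    (hO : IsOpen O) (hne : O.Nonempty) : (Y ∩ O).Nonempty := by
  obtain ⟨x, hx⟩ := hne
  obtain ⟨U, hUO, hxU, -, -, F, hF⟩ := exists_basic hO hx
  obtain ⟨y, hyY, hy⟩ := hY (F : Set I) F.countable_toSet x
  exact ⟨y, hyY, hUO (hF x y (fun i hi => (hy i hi).symm) hxU)⟩

theorem CP.preconnected {Y : Set (I → UnitAddCircle)} (hY : CP Y) : IsPreconnected Y := by
  rintro O₁ O₂ hO₁ hO₂ hcov ⟨a, haY, ha⟩ ⟨b, hbY, hb⟩
  by_contra hcon
  have hdisj : O₁ ∩ O₂ = ∅ := by
    by_contra hne
    have := hY.meets (hO₁.inter hO₂) (nonempty_iff_ne_empty.2 hne)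
    exact hcon this
  obtain ⟨A₁, hA₁, hd₁⟩ := closure_dep hO₁
  obtain ⟨A₂, hA₂, hd₂⟩ := closure_dep hO₂
  have hun : closure O₁ ∪ closure O₂ = univ := by
    rw [← closure_union, ← dense_iff_closure_eq, dense_iff_inter_open]
    intro V hV hVne
    obtain ⟨y, hyY, hyV⟩ := hY.meets hV hVne
    exact ⟨y, hyV, hcov hyY⟩
  have hpre : IsPreconnected (univ : Set (I → UnitAddCircle)) := isPreconnected_univ
  obtain ⟨z, -, hz₁, hz₂⟩ := isPreconnected_closed_iff.1 hpre (closure O₁) (closure O₂)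
    isClosed_closure isClosed_closure hun.ge ⟨a, mem_univ _, subset_closure ha⟩
    ⟨b, mem_univ _, subset_closure hb⟩
  obtain ⟨y, hyY, hy⟩ := hY (A₁ ∪ A₂) (hA₁.union hA₂) z
  have hy₁ : y ∈ closure O₁ := hd₁ z y (fun i hi => (hy i (Or.inl hi)).symm) hz₁
  have hy₂ : y ∈ closure O₂ := hd₂ z y (fun i hi => (hy i (Or.inr hi)).symm) hz₂
  rcases hcov hyY with h | h
  · obtain ⟨w, hw1, hw2⟩ := mem_closure_iff.1 hy₂ O₁ hO₁ h
    rw [eq_empty_iff_forall_notMem] at hdisj
    exact hdisj w ⟨hw1, hw2⟩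
  · obtain ⟨w, hw1, hw2⟩ := mem_closure_iff.1 hy₁ O₂ hO₂ h
    rw [eq_empty_iff_forall_notMem] at hdisj
    exact hdisj w ⟨hw2, hw1⟩

/-- the points of a `CP` set that vanish on a given countable set form a connected set -/
theorem CP.preconnected_zero {Y : Set (I → UnitAddCircle)} (hY : CP Y) {A : Set I}
    (hA : A.Countable) : IsPreconnected {y ∈ Y | ∀ i ∈ A, y i = 0} := by
  classical
  let r : (I → UnitAddCircle) → (I → UnitAddCircle) := fun w i => if i ∈ A then 0 else w i
  have hrc : Continuous r := by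
    refine continuous_pi fun i => ?_
    by_cases hi : i ∈ A
    · simp only [r, if_pos hi]; exact continuous_const
    · simp only [r, if_neg hi]; exact continuous_apply i
  have hCP : CP (r ⁻¹' Y) := by
    intro B hB z
    obtain ⟨g, hgY, hg⟩ := hY (A ∪ B) (hA.union hB) (r z)
    refine ⟨fun i => if i ∈ A then z i else g i, ?_, ?_⟩
    · have : r (fun i => if i ∈ A then z i else g i) = g := by
        funext i
        by_cases hi : i ∈ A
        · simp only [r, if_pos hi]
          rw [hg i (Or.inl hi)]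
          simp only [r, if_pos hi]
        · simp only [r, if_neg hi]
      show r _ ∈ Y
      rw [this]
      exact hgY
    · intro i hi
      by_cases hiA : i ∈ A
      · simp only [if_pos hiA]
      · simp only [if_neg hiA]
        rw [hg i (Or.inr hi)]
        simp only [r, if_neg hiA]
  have himg : r '' (r ⁻¹' Y) = {y ∈ Y | ∀ i ∈ A, y i = 0} := by
    ext y
    constructor
    · rintro ⟨w, hw, rfl⟩
      exact ⟨hw, fun i hi => by simp only [r, if_pos hi]⟩
    · rintro ⟨hyY, hy⟩
      have hry : r y = y := by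
        funext i
        by_cases hi : i ∈ A
        · simp only [r, if_pos hi]; exact (hy i hi).symm
        · simp only [r, if_neg hi]
      exact ⟨y, by show r y ∈ Y; rw [hry]; exact hyY, hry⟩
  rw [← himg]
  exact hCP.preconnected.image r hrc.continuousOn

/-- a `CP` set is pseudocompact -/
theorem CP.pseudocompact {Y : Set (I → UnitAddCircle)} (hY : CP Y) (f : Y → ℝ)
    (hf : Continuous f) : ∃ C : ℝ, ∀ y, |f y| ≤ C := by
  classical
  by_contra hcon
  push Not at hcon
  choose y hy using fun n : ℕ => hcon n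
  have hO : ∀ n : ℕ, ∃ U : Set (I → UnitAddCircle), (y n : I → UnitAddCircle) ∈ U ∧ Basic U ∧
      ∀ w : Y, (w : I → UnitAddCircle) ∈ U → (n : ℝ) < |f w| := by
    intro n
    have h1 : IsOpen {w : Y | (n : ℝ) < |f w|} := isOpen_lt continuous_const (hf.abs)
    obtain ⟨O, hO, hO2⟩ := isOpen_induced_iff.1 h1
    have h2 : (y n : I → UnitAddCircle) ∈ O := by
      have : y n ∈ (Subtype.val ⁻¹' O : Set Y) := by rw [hO2]; exact hy n
      exact this
    obtain ⟨U, hUO, hyU, hU⟩ := exists_basic hO h2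
    refine ⟨U, hyU, hU, fun w hw => ?_⟩
    have : w ∈ (Subtype.val ⁻¹' O : Set Y) := hUO hw
    rw [hO2] at this
    exact this
  choose U hyU hU hfU using hO
  choose F hF using fun n => (hU n).2.2
  obtain ⟨z, -, hz⟩ := isCompact_univ.exists_mapClusterPt (u := fun n => (y n : I → UnitAddCircle))
    (f := atTop) (by simp)
  obtain ⟨v, hvY, hv⟩ := hY (⋃ n, (F n : Set I)) (countable_iUnion fun n => (F n).countable_toSet) z
  have h1 : IsOpen {w : Y | |f w| < |f ⟨v, hvY⟩| + 1} := isOpen_lt hf.abs continuous_const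
  obtain ⟨O, hO, hO2⟩ := isOpen_induced_iff.1 h1
  have h2 : v ∈ O := by
    have : (⟨v, hvY⟩ : Y) ∈ (Subtype.val ⁻¹' O : Set Y) := by
      rw [hO2]; show |f ⟨v, hvY⟩| < |f ⟨v, hvY⟩| + 1; linarith
    exact this
  obtain ⟨F', u, hu, hsub⟩ := isOpen_pi_iff.1 hO v h2
  -- neighbourhood of `z`
  let F'' : Finset I := F'.filter fun i => i ∈ ⋃ n, (F n : Set I)
  have hzn : (F'' : Set I).pi u ∈ 𝓝 z := by
    refine (isOpen_set_pi F''.finite_toSet fun i hi => ?_).mem_nhds fun i hi => ?_
    · exact (hu i (Finset.mem_filter.1 hi).1).1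
    · rw [← hv i (Finset.mem_filter.1 hi).2]
      exact (hu i (Finset.mem_filter.1 hi).1).2
  obtain ⟨N, hN⟩ := exists_nat_gt (|f ⟨v, hvY⟩| + 1)
  obtain ⟨n, hnN, hn⟩ := ((hz.frequently hzn).and_eventually (eventually_ge_atTop N)).exists.imp
    fun n h => And.intro h.2 h.1
  let w : I → UnitAddCircle := fun i => if i ∈ ⋃ n, (F n : Set I) then (y n : I → UnitAddCircle) i
    else v i
  have hwU : w ∈ U n := by
    refine hF n (y n) w (fun i hi => ?_) (hyU n)
    have : i ∈ ⋃ n, (F n : Set I) := mem_iUnion.2 ⟨n, hi⟩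
    simp only [w, if_pos this]
  have hwO : w ∈ O := by
    refine hsub fun i hi => ?_
    by_cases h : i ∈ ⋃ n, (F n : Set I)
    · simp only [w, if_pos h]
      exact hn i (Finset.mem_coe.2 (Finset.mem_filter.2 ⟨hi, h⟩))
    · simp only [w, if_neg h]
      exact (hu i hi).2
  obtain ⟨g, hgY, hgU, hgO⟩ := hY.meets ((hU n).1.inter hO) ⟨w, hwU, hwO⟩
  have h3 := hfU n ⟨g, hgY⟩ hgU
  have h4 : (⟨g, hgY⟩ : Y) ∈ (Subtype.val ⁻¹' O : Set Y) := hgO
  rw [hO2] at h4
  have h5 : |f ⟨g, hgY⟩| < |f ⟨v, hvY⟩| + 1 := h4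
  have h6 : (N : ℝ) ≤ n := by exact_mod_cast hnN
  linarith

end Pool.Agent.W654.Top
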