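import Pool.Agent.W654.Kron
import Pool.Agent.W654.Top
import Pool.Agent.W654.Div

set_option autoImplicit false

/-!
# A large pseudocompact group all of whose closed subgroups are connected or trivial
-/

namespace Pool.Agent.W654.Grp

open Filter Topology Set Pool.Agent.W654.Top

variable {I Λ : Type}

/-- Kronecker's theorem in a power of the circle -/
theorem mem_closure_mult (g : I → UnitAddCircle) (A : Set I)
    (hA : ∀ k : I →₀ ℤ, (k.sum fun i c => c • g i) = 0 → ∀ i, i ∉ A → k i = 0)
    (x : I → UnitAddCircle) (hx : ∀ i ∈ A, x i = 0) :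
    x ∈ closure (range fun n : ℕ => n • g) := by
  classical
  rw [mem_closure_iff]
  intro O hO hxO
  obtain ⟨F, u, hu, hsub⟩ := isOpen_pi_iff.1 hO x hxO
  have hε : ∀ i ∈ F, ∃ ε : ℝ, 0 < ε ∧ Metric.ball (x i) ε ⊆ u i := fun i hi =>
    Metric.isOpen_iff.1 (hu i hi).1 _ (hu i hi).2
  choose! ε hε0 hεu using hε
  obtain ⟨δ, hδ0, hδ⟩ : ∃ δ : ℝ, 0 < δ ∧ ∀ i ∈ F, δ ≤ ε i := by
    rcases F.eq_empty_or_nonempty with rfl | hF
    · exact ⟨1, one_pos, by simp⟩
    · obtain ⟨j, hj, hj2⟩ := F.exists_min_image ε hF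
      exact ⟨ε j, hε0 j hj, hj2⟩
  obtain ⟨n, hn⟩ := Kron.kronecker (d := F) (fun i => g i) (fun i => x i) (by
    intro k hk
    let k' : I →₀ ℤ := Finsupp.onFinset F (fun i => if h : i ∈ F then k ⟨i, h⟩ else 0) (by
      intro i hi
      by_contra hiF
      simp [hiF] at hi)
    have hk' : ∀ i : F, k' i = k i := by
      intro i
      simp [k', Finsupp.onFinset_apply]
    have hsum : ∀ w : I → UnitAddCircle, (k'.sum fun i c => c • w i) = ∑ i : F, k i • w i := by
      intro w
      rw [Finsupp.onFinset_sum]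
      · rw [← Finset.sum_coe_sort]
        refine Finset.sum_congr rfl fun i _ => ?_
        simp
      · intro i; exact zero_smul _ _
    have h0 := hA k' (by rw [hsum]; exact hk)
    rw [← hsum, Finsupp.sum]
    refine Finset.sum_eq_zero fun i _ => ?_
    by_cases hi : i ∈ A
    · rw [hx i hi, smul_zero]
    · rw [h0 i hi, zero_smul]) δ hδ0
  refine ⟨n • g, hsub fun i hi => hεu i hi ?_, ⟨n, rfl⟩⟩
  rw [Metric.mem_ball]
  have h1 : dist ((n • fun i : F => g i) ⟨i, hi⟩) (x i) < δ :=
    lt_of_le_of_lt (dist_le_pi_dist (n • fun i : F => g i) (fun i : F => x i) ⟨i, hi⟩) hn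
  exact h1.trans_le (hδ i hi)

/-- the relations of a point that is independent off a countable set live on a countable set -/
theorem exists_countable (g : I → UnitAddCircle) (A : Set I) (hA : A.Countable)
    (hg : ∀ k : I →₀ ℤ, (∀ i ∈ A, k i = 0) → (k.sum fun i c => c • g i) = 0 → k = 0) :
    ∃ A' : Set I, A'.Countable ∧
      ∀ k : I →₀ ℤ, (k.sum fun i c => c • g i) = 0 → ∀ i, i ∉ A' → k i = 0 := by
  classical
  let R : Set (I →₀ ℤ) := {k | (k.sum fun i c => c • g i) = 0}
  have hR : R.Countable := by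
    have _ : Countable A := hA.to_subtype
    have hinj : Set.InjOn (fun k : I →₀ ℤ => k.subtypeDomain (· ∈ A)) R := by
      intro k hk l hl hkl
      rw [← sub_eq_zero]
      apply hg
      · intro i hi
        have := DFunLike.congr_fun hkl ⟨i, hi⟩
        simp only [Finsupp.subtypeDomain_apply] at this
        rw [Finsupp.sub_apply, this, sub_self]
      · rw [Finsupp.sum_sub_index (fun i a b => sub_smul a b (g i))]
        have h1 : (k.sum fun i c => c • g i) = 0 := hk
        have h2 : (l.sum fun i c => c • g i) = 0 := hl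
        rw [h1, h2, sub_zero]
    exact (Set.to_countable _ : (Set.univ : Set (A →₀ ℤ)).Countable).preimage_of_injOn
      (f := fun k : I →₀ ℤ => k.subtypeDomain (· ∈ A)) (s := univ) |> fun _ =>
      Set.countable_of_injective_of_countable_image hinj (Set.to_countable _)
  refine ⟨⋃ k ∈ R, (k.support : Set I), hR.biUnion fun k _ => k.support.countable_toSet, ?_⟩
  intro k hk i hi
  by_contra hne
  apply hi
  rw [mem_iUnion₂]
  exact ⟨k, hk, Finsupp.mem_support_iff.2 hne⟩

section main

variable (b : Λ → I → UnitAddCircle)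

/-- integer combinations of the points `b α` -/
noncomputable def Φ : (Λ →₀ ℤ) →+ (I → UnitAddCircle) :=
  Finsupp.liftAddHom fun α => (zmultiplesHom (I → UnitAddCircle) (b α))

theorem Φ_apply (c : Λ →₀ ℤ) : Φ b c = c.sum fun α m => m • b α := by
  rw [Φ, Finsupp.liftAddHom_apply]
  refine Finset.sum_congr rfl fun α _ => ?_
  simp

theorem Φ_apply' (c : Λ →₀ ℤ) (i : I) : Φ b c i = c.sum fun α m => m • b α i := by
  rw [Φ_apply, Finsupp.sum, Finset.sum_apply]
  rfl

theorem Φ_single (α : Λ) : Φ b (Finsupp.single α 1) = b α := by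
  rw [Φ_apply, Finsupp.sum_single_index (h := fun α m => m • b α) (zero_smul _ _), one_smul]

/-- the group -/
noncomputable def G : AddSubgroup (I → UnitAddCircle) := (Φ b).range

variable {b}

theorem main [Uncountable I] (A : Λ → Set I) (hA : ∀ α, (A α).Countable)
    (hsurj : ∀ B : Set I, B.Countable → ∀ z : I → UnitAddCircle, ∃ α, ∀ i ∈ B, b α i = z i)
    (h : Λ → I → UnitAddCircle) (hb : ∀ α, ∀ i ∉ A α, b α i = h α i)
    (hInd : ∀ k : Λ × I →₀ ℤ, (k.sum fun p c => c • h p.1 p.2) = 0 → k = 0)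
    (hDiv : ∀ σ : ℕ → (Λ →₀ ℤ), (¬ ∃ N, ∀ n ≥ N, σ n = σ N) →
      ∃ i, (∀ n, ∀ α ∈ (σ n).support, i ∉ A α) ∧
        ¬ ∃ t, Tendsto (fun n => (σ n).sum fun α c => c • h α i) atTop (𝓝 t)) :
    (∀ f : G b → ℝ, Continuous f → ∃ C : ℝ, ∀ x, |f x| ≤ C) ∧
    (∀ u : ℕ → G b, (∀ U ∈ 𝓝 (0 : G b), ∃ N, ∀ m ≥ N, ∀ n ≥ N, u m - u n ∈ U) →
      ∃ x, Tendsto u atTop (𝓝 x)) ∧
    (∀ H : AddSubgroup (G b), IsClosed (H : Set (G b)) →
      (∃ B : Set (Set H), TopologicalSpace.IsTopologicalBasis B ∧ ∀ s ∈ B, IsClopen s) →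
      DiscreteTopology H) ∧
    ¬ TopologicalSpace.MetrizableSpace (G b) := by
  classical
  have hCP : CP (G b : Set (I → UnitAddCircle)) := by
    intro B hB z
    obtain ⟨α, hα⟩ := hsurj B hB z
    exact ⟨b α, ⟨Finsupp.single α 1, Φ_single b α⟩, hα⟩
  obtain ⟨half, hhalf⟩ : ∃ t : UnitAddCircle, t ≠ 0 := by
    refine ⟨((1 / 2 : ℝ) : UnitAddCircle), fun h0 => ?_⟩
    rw [AddCircle.coe_eq_zero_iff] at h0
    obtain ⟨l, hl⟩ := h0
    rw [zsmul_eq_mul, mul_one] at hl
    have h7 : (2 * l : ℝ) = 1 := by linarith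
    have h8 : 2 * l = 1 := by exact_mod_cast h7
    omega
  have hnz : ∀ B : Set I, B.Countable → ∃ y ∈ G b, (∀ i ∈ B, y i = 0) ∧ y ≠ 0 := by
    intro B hB
    obtain ⟨j, hj⟩ : ∃ j, j ∉ B := by
      by_contra hcon
      push Not at hcon
      have : B = univ := eq_univ_of_forall hcon
      rw [this] at hB
      exact Set.not_countable_univ hB
    obtain ⟨y, hy, hy2⟩ := hCP (insert j B) (hB.insert j) (Function.update 0 j half)
    refine ⟨y, hy, fun i hi => ?_, fun h0 => ?_⟩
    · rw [hy2 i (Or.inr hi), Function.update_of_ne (by rintro rfl; exact hj hi)]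
      rfl
    · have := hy2 j (Or.inl rfl)
      rw [h0, Function.update_self] at this
      exact hhalf this.symm
  refine ⟨fun f hf => hCP.pseudocompact f hf, ?_, ?_, ?_⟩
  · intro u hu
    have hex : ∀ n, ∃ c, Φ b c = u n := fun n => (u n).2
    choose σ hσ using hex
    by_cases hev : ∃ N, ∀ n ≥ N, σ n = σ N
    · obtain ⟨N, hN⟩ := hev
      refine ⟨u N, tendsto_const_nhds.congr' ?_⟩
      filter_upwards [eventually_ge_atTop N] with n hn
      apply Subtype.ext
      rw [← hσ, ← hσ, hN n hn]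
    · exfalso
      obtain ⟨i, hi, hi2⟩ := hDiv σ hev
      apply hi2
      have hval : ∀ n, ((σ n).sum fun α c => c • h α i) = (u n : I → UnitAddCircle) i := by
        intro n
        rw [← hσ, Φ_apply']
        refine Finset.sum_congr rfl fun α hα => ?_
        show _ • h α i = _ • b α i
        rw [hb α i (hi n α hα)]
      simp only [hval]
      apply cauchySeq_tendsto_of_complete
      rw [Metric.cauchySeq_iff]
      intro ε hε
      have hcont : Continuous fun x : G b => ‖(x : I → UnitAddCircle) i‖ :=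
        ((continuous_apply i).comp continuous_subtype_val).norm
      have hU : {x : G b | ‖(x : I → UnitAddCircle) i‖ < ε} ∈ 𝓝 (0 : G b) :=
        (isOpen_lt hcont continuous_const).mem_nhds (by simpa using hε)
      obtain ⟨N, hN⟩ := hu _ hU
      refine ⟨N, fun m hm n hn => ?_⟩
      rw [dist_eq_norm]
      exact hN m hm n hn
  · rintro H hH ⟨B, hB, hBc⟩
    suffices hbot : ∀ g ∈ H, g = 0 by
      have : Subsingleton H := ⟨fun x y => Subtype.ext (by rw [hbot x x.2, hbot y y.2])⟩
      infer_instance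
    intro g hg
    by_contra hg0
    obtain ⟨c, hc⟩ : ∃ c, Φ b c = g := g.2
    have hc0 : c ≠ 0 := by
      rintro rfl
      apply hg0
      apply Subtype.ext
      rw [← hc, map_zero]
      rfl
    obtain ⟨α₀, hα₀⟩ : ∃ α, c α ≠ 0 := by
      by_contra hcon
      push Not at hcon
      exact hc0 (Finsupp.ext hcon)
    have hAc : (⋃ α ∈ c.support, A α).Countable :=
      Set.Countable.biUnion c.support.countable_toSet fun α _ => hA α
    obtain ⟨A', hA', hA'2⟩ := exists_countable (g : I → UnitAddCircle) (⋃ α ∈ c.support, A α) hAc (by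
      intro k hk hk0
      -- the relation for `h`
      let K : Λ × I →₀ ℤ := Finsupp.onFinset (c.support ×ˢ k.support)
        (fun p => c p.1 * k p.2) (by
          intro p hp
          rw [Finset.mem_product, Finsupp.mem_support_iff, Finsupp.mem_support_iff]
          exact ⟨left_ne_zero_of_mul hp, right_ne_zero_of_mul hp⟩)
      have hK : K = 0 := by
        apply hInd
        rw [Finsupp.onFinset_sum]
        · rw [Finset.sum_product_right]
          rw [Finsupp.sum] at hk0
          rw [← hk0]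
          refine Finset.sum_congr rfl fun i hi => ?_
          have hki : k i ≠ 0 := Finsupp.mem_support_iff.1 hi
          rw [← hc, Φ_apply', Finsupp.sum, Finset.smul_sum]
          refine Finset.sum_congr rfl fun α hα => ?_
          have hiA : i ∉ A α := fun hmem => hki (hk i (mem_iUnion₂.2 ⟨α, hα, hmem⟩))
          rw [hb α i hiA, smul_smul, mul_comm]
        · intro p; exact zero_smul _ _
      ext i
      have := DFunLike.congr_fun hK (α₀, i)
      simp only [K, Finsupp.onFinset_apply, Finsupp.coe_zero, Pi.zero_apply, mul_eq_zero] at this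
      rcases this with h | h
      · exact absurd h hα₀
      · exact h)
    -- elements of `G` vanishing on `A'` lie in `H`
    have hmemH : ∀ x : G b, (∀ i ∈ A', (x : I → UnitAddCircle) i = 0) → x ∈ H := by
      intro x hx
      have h1 := mem_closure_mult (g : I → UnitAddCircle) A' hA'2 (x : I → UnitAddCircle) hx
      have h2 : x ∈ closure (range fun n : ℕ => n • g) := by
        rw [closure_subtype]
        convert h1 using 2
        ext y
        simp
      have h3 : closure (range fun n : ℕ => n • g) ⊆ (H : Set (G b)) := by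
        refine closure_minimal ?_ hH
        rintro _ ⟨n, rfl⟩
        exact H.nsmul_mem hg n
      exact h3 h2
    let ι : H → (I → UnitAddCircle) := fun x => ((x : G b) : I → UnitAddCircle)
    have hι : Topology.IsInducing ι :=
      Topology.IsInducing.subtypeVal.comp Topology.IsInducing.subtypeVal
    have hpre : IsPreconnected {x : H | ∀ i ∈ A', ι x i = 0} := by
      rw [← hι.isPreconnected_image]
      have := hCP.preconnected_zero hA'
      convert this using 1
      ext y
      constructor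
      · rintro ⟨x, hx, rfl⟩
        exact ⟨(x : G b).2, hx⟩
      · rintro ⟨hy1, hy2⟩
        exact ⟨⟨⟨y, hy1⟩, hmemH ⟨y, hy1⟩ hy2⟩, hy2, rfl⟩
    obtain ⟨y, hyG, hy0, hyne⟩ := hnz A' hA'
    let y' : H := ⟨⟨y, hyG⟩, hmemH ⟨y, hyG⟩ hy0⟩
    have hy'ne : (0 : H) ≠ y' := by
      intro h0
      apply hyne
      have := congrArg ι h0
      exact this.symm
    have hopen : IsOpen ({y'}ᶜ : Set H) := isOpen_compl_singleton
    obtain ⟨s, hsB, h0s, hsub⟩ := hB.exists_subset_of_mem_open (a := (0 : H)) (by simpa using hy'ne) hopen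
    have hsub2 := hpre.subset_isClopen (hBc s hsB) ⟨0, fun i _ => rfl, h0s⟩
    have hmem : y' ∈ s := hsub2 (fun i hi => hy0 i hi)
    exact hsub hmem rfl
  · intro hmet
    obtain ⟨V, hV⟩ := (𝓝 (0 : G b)).exists_antitone_basis
    have hF : ∀ n, ∃ F : Finset I, ∀ x : G b, (∀ i ∈ F, (x : I → UnitAddCircle) i = 0) → x ∈ V n := by
      intro n
      have hVn : V n ∈ 𝓝 (0 : G b) := hV.mem n
      rw [nhds_subtype_eq_comap, Filter.mem_comap] at hVn
      obtain ⟨W, hW, hWV⟩ := hVn
      obtain ⟨O, hOW, hO, hO0⟩ := mem_nhds_iff.1 hW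
      have hOV : Subtype.val ⁻¹' O ⊆ V n := (preimage_mono hOW).trans hWV
      obtain ⟨F, u, hu, hsub⟩ := isOpen_pi_iff.1 hO _ hO0
      refine ⟨F, fun x hx => hOV (hsub fun i hi => ?_)⟩
      rw [hx i hi]
      exact (hu i hi).2
    choose F hF using hF
    obtain ⟨y, hyG, hy0, hyne⟩ := hnz (⋃ n, (F n : Set I))
      (countable_iUnion fun n => (F n).countable_toSet)
    have h1 : ({(⟨y, hyG⟩ : G b)}ᶜ : Set (G b)) ∈ 𝓝 (0 : G b) := by
      refine isOpen_compl_singleton.mem_nhds ?_
      intro h0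
      exact hyne (congrArg Subtype.val h0).symm
    obtain ⟨n, -, hn⟩ := hV.toHasBasis.mem_iff.1 h1
    exact hn (hF n ⟨y, hyG⟩ fun i hi => hy0 i (mem_iUnion.2 ⟨n, hi⟩)) rfl

end main

end Pool.Agent.W654.Grp
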