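import Pool.Agent.W988.RA.Defs

open MeasureTheory
open scoped ENNReal BigOperators
open Pool.Agent.W988.RA

set_option autoImplicit false

namespace Pool.Agent.W654.RA_DET

/-- the block matrix acting on arrays, column by column -/
noncomputable def BM {n : ℕ} (m : ℕ) (M : MM n) :
    Matrix (Fin n × Fin m) (Fin n × Fin m) ℝ :=
  Matrix.blockDiagonal (fun _ : Fin m => Matrix.of M)

lemma det_BM {n : ℕ} (m : ℕ) (M : MM n) :
    (BM m M).det = (Matrix.det (Matrix.of M)) ^ m := by
  unfold BM
  rw [Matrix.det_blockDiagonal]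
  simp

lemma toLin_BM {n m : ℕ} (M : MM n) (V : AR n m) :
    Matrix.toLin' (BM m M) V = fun p : Fin n × Fin m => mulV M (fun j => V (j, p.2)) p.1 := by
  funext p
  obtain ⟨k, i⟩ := p
  rw [Matrix.toLin'_apply]
  simp only [Matrix.mulVec, dotProduct, mulV, BM]
  rw [Fintype.sum_prod_type]
  refine Finset.sum_congr rfl (fun j _ => ?_)
  rw [Finset.sum_eq_single i]
  · simp [Matrix.blockDiagonal_apply]
  · intro b _ hb
    simp [Matrix.blockDiagonal_apply, hb.symm]
  · intro h
    exact absurd (Finset.mem_univ i) h

theorem result : S_DET := by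
  intro n m M B hm hB
  by_cases hd : Matrix.det (Matrix.of M) = 0
  · have h0 : dtm M = 0 := by
      unfold dtm
      rw [hd, abs_zero]
    rw [h0, zero_pow hm.ne', ENNReal.ofReal_zero, zero_mul]
    exact bot_le
  · have hD : (BM m M).det ≠ 0 := by
      rw [det_BM]
      exact pow_ne_zero _ hd
    have key := Real.map_matrix_volume_pi_eq_smul_volume_pi hD
    have hmeas : Measurable (Matrix.toLin' (BM m M) : AR n m → AR n m) :=
      (LinearMap.continuous_of_finiteDimensional _).measurable
    have happ := congrArg (fun μ : Measure (AR n m) => μ B) key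
    simp only [Measure.smul_apply, smul_eq_mul] at happ
    rw [Measure.map_apply hmeas hB] at happ
    have hset : {V : AR n m | (fun p : Fin n × Fin m => mulV M (fun j => V (j, p.2)) p.1) ∈ B}
        = (Matrix.toLin' (BM m M)) ⁻¹' B := by
      ext V
      simp only [Set.mem_ofPred_eq, Set.mem_preimage]
      rw [toLin_BM]
    rw [hset, happ, ← mul_assoc, ← ENNReal.ofReal_mul (by unfold dtm; positivity)]
    have habs : dtm M ^ m * |((BM m M).det)⁻¹| = 1 := by
      rw [det_BM]
      unfold dtm
      rw [abs_inv, abs_pow]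
      exact mul_inv_cancel₀ (pow_ne_zero _ (abs_ne_zero.mpr hd))
    rw [habs, ENNReal.ofReal_one, one_mul]

end Pool.Agent.W654.RA_DET
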