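import Pool.Agent.W982.TA.Grid

/-!
Subtask TA-F3 (owner helper982, MP_f9630a_lc): separated segments do not cross properly.
-/

set_option autoImplicit false

namespace Pool.Agent.W982.TA

theorem f3_pos (A B C D x y z w m : ℤ) (hA : 0 < A) (hB : B < 0) (hC : C < 0) (hD : 0 < D)
    (hs : A - B + C - D = 0) (hid : A * w - B * z + C * y - D * x = 0)
    (hx : x ≤ m) (hy : y ≤ m) (hz : m ≤ z) (hw : m ≤ w) :
    x = m ∧ y = m ∧ z = m ∧ w = m := by
  have h1 : 0 ≤ A * (w - m) := mul_nonneg hA.le (by linarith)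
  have h2 : 0 ≤ (-B) * (z - m) := mul_nonneg (by linarith) (by linarith)
  have h3 : 0 ≤ (-C) * (m - y) := mul_nonneg (by linarith) (by linarith)
  have h4 : 0 ≤ D * (m - x) := mul_nonneg hD.le (by linarith)
  have h5 : A * (w - m) + (-B) * (z - m) + (-C) * (m - y) + D * (m - x) = 0 := by
    linear_combination hid - m * hs
  have e1 : A * (w - m) = 0 := by linarith
  have e2 : (-B) * (z - m) = 0 := by linarith
  have e3 : (-C) * (m - y) = 0 := by linarith
  have e4 : D * (m - x) = 0 := by linarith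
  rcases mul_eq_zero.1 e1 with h | h
  · omega
  rcases mul_eq_zero.1 e2 with h' | h'
  · omega
  rcases mul_eq_zero.1 e3 with h'' | h''
  · omega
  rcases mul_eq_zero.1 e4 with h''' | h'''
  · omega
  omega

theorem f3_key (A B C D x y z w m : ℤ) (hAB : A * B < 0) (hCD : C * D < 0)
    (hs : A - B + C - D = 0) (hid : A * w - B * z + C * y - D * x = 0)
    (hx : x ≤ m) (hy : y ≤ m) (hz : m ≤ z) (hw : m ≤ w) :
    x = m ∧ y = m ∧ z = m ∧ w = m := by
  rcases mul_neg_iff.1 hAB with ⟨h1, h2⟩ | ⟨h1, h2⟩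
  · rcases mul_neg_iff.1 hCD with ⟨h3, h4⟩ | ⟨h3, h4⟩
    · omega
    · exact f3_pos A B C D x y z w m h1 h2 h3 h4 hs hid hx hy hz hw
  · rcases mul_neg_iff.1 hCD with ⟨h3, h4⟩ | ⟨h3, h4⟩
    · exact f3_pos (-A) (-B) (-C) (-D) x y z w m (by omega) (by omega) (by omega) (by omega)
        (by linarith) (by linarith) hx hy hz hw
    · omega

theorem f3 : TaskF3 := by
  intro a b c d m
  have hs : dt a b c - dt a b d + dt c d a - dt c d b = 0 := by
    simp only [dt]; ring
  have i1 : dt a b c * d.1 - dt a b d * c.1 + dt c d a * b.1 - dt c d b * a.1 = 0 := by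
    simp only [dt]; ring
  have i2 : dt a b c * d.2 - dt a b d * c.2 + dt c d a * b.2 - dt c d b * a.2 = 0 := by
    simp only [dt]; ring
  constructor
  · rintro ha hb hc hd ⟨h1, h2⟩
    obtain ⟨e1, e2, e3, e4⟩ := f3_key _ _ _ _ _ _ _ _ m h1 h2 hs i1 ha hb hc hd
    have h0 : dt a b c = 0 := by
      simp only [dt, e1, e2, e3]; ring
    rw [h0] at h1
    simp at h1
  · rintro ha hb hc hd ⟨h1, h2⟩
    obtain ⟨e1, e2, e3, e4⟩ := f3_key _ _ _ _ _ _ _ _ m h1 h2 hs i2 ha hb hc hd
    have h0 : dt a b c = 0 := by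
      simp only [dt, e1, e2, e3]; ring
    rw [h0] at h1
    simp at h1

end Pool.Agent.W982.TA
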