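import Pool.Agent.W792.WA.Stm5

/-!
Subtask WA-GAPC (owner helper792, MP_28b024_mp): gap for all laws with enough variance.
-/

set_option autoImplicit false

namespace Pool.Agent.W654.WA.Gapc

open MeasureTheory Filter Pool.Agent.W792.LL Pool.Agent.W792.WA
open scoped Topology

theorem meas_lev (ψ : C(UnitAddCircle, ℝ)) (l : ℝ) :
    Measurable (fun φ : ℝ => l * ψ (φ : UnitAddCircle)) := by
  have : Continuous (fun φ : ℝ => l * ψ (φ : UnitAddCircle)) :=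
    continuous_const.mul (ψ.continuous.comp (AddCircle.continuous_mk' (1 : ℝ)))
  exact this.measurable

theorem prob_Ioc : IsProbabilityMeasure (volume.restrict (Set.Ioc (0 : ℝ) 1)) := ⟨by simp⟩

theorem prob_lev (ψ : C(UnitAddCircle, ℝ)) (l : ℝ) : IsProbabilityMeasure (lev ψ l) := by
  unfold lev
  have := prob_Ioc
  exact Measure.isProbabilityMeasure_map (meas_lev ψ l).aemeasurable

theorem lev_supp {ψ : C(UnitAddCircle, ℝ)} (hψ : ∀ t, |ψ t| ≤ 1) {l : ℝ} (hl : 0 < l) :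
    ∀ᵐ a ∂(lev ψ l), |a| ≤ l := by
  unfold lev
  rw [ae_map_iff (meas_lev ψ l).aemeasurable (measurableSet_le (by fun_prop) (by fun_prop))]
  filter_upwards with φ
  rw [abs_mul, abs_of_pos hl]
  have := mul_le_mul_of_nonneg_left (hψ (φ : UnitAddCircle)) hl.le
  linarith

theorem conv_supp {ψ : C(UnitAddCircle, ℝ)} (hψ : ∀ t, |ψ t| ≤ 1) {l : ℝ} (hl : 0 < l)
    {ρ : Measure ℝ} [IsProbabilityMeasure ρ] {C : ℝ} (hρ : ρ (Set.Icc (-C) C)ᶜ = 0) :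
    ((lev ψ l).conv ρ) (Set.Icc (-(C + l)) (C + l))ᶜ = 0 := by
  have := prob_lev ψ l
  have h1 : ∀ᵐ p ∂((lev ψ l).prod ρ), p.1 + p.2 ∈ Set.Icc (-(C + l)) (C + l) := by
    have a1 : ∀ᵐ p ∂((lev ψ l).prod ρ), |p.1| ≤ l :=
      Measure.quasiMeasurePreserving_fst.ae (lev_supp hψ hl)
    have a2 : ∀ᵐ p ∂((lev ψ l).prod ρ), p.2 ∈ Set.Icc (-C) C := by
      have : ∀ᵐ b ∂ρ, b ∈ Set.Icc (-C) C := by
        rw [ae_iff]; exact hρ
      exact Measure.quasiMeasurePreserving_snd.ae this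
    filter_upwards [a1, a2] with p h1 h2
    have := abs_le.1 h1
    constructor <;> linarith [h2.1, h2.2]
  rw [Measure.conv, Measure.map_apply (by fun_prop) measurableSet_Icc.compl]
  exact ae_iff.1 h1

theorem aux {n c V κ η : ℝ} (hc : 0 ≤ c) (h : n ^ 2 ≤ 1 - c * V / 4) (hV : κ ≤ V)
    (hη : η ≤ c * κ / 8) : n ^ 2 ≤ (1 - η) ^ 2 := by
  have h1 : c * κ ≤ c * V := mul_le_mul_of_nonneg_left hV hc
  have h2 : (1 - η) ^ 2 = 1 - 2 * η + η ^ 2 := by ring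
  have h3 := sq_nonneg η
  linarith

/-- Subtask WA-GAPC. -/
theorem main : Pool.Agent.W792.WA.S_LEV0 → Pool.Agent.W792.WA.S_UUC → Pool.Agent.W792.WA.S_PSI →
    Pool.Agent.W792.WA.S_FIX → Pool.Agent.W792.WA.S_CX → Pool.Agent.W792.WA.S_GAPC := by
  intro hLEV hUUC hPSI hFIX hCX p κ D ε hp1 hp2 hκ hκ1 hε
  obtain ⟨ψ, R, η, q, hψ, hR, hη, hη1, hq0, hq1, hηq, hint, hL⟩ := hLEV p κ D ε hp1 hp2 hκ hκ1 hε
  refine ⟨ψ, R, η, hψ, hR, hη, hint, ?_⟩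
  intro ν _ d K z ρ' _ hvr hρ' hKz hz s hs
  have hvpos : 0 < vr ν := lt_of_lt_of_le hκ hvr
  have hpl := prob_lev ψ R
  obtain ⟨ρ, hρ⟩ : ∃ ρ, ρ = (lev ψ R).conv ρ' := ⟨_, rfl⟩
  have hpr : IsProbabilityMeasure ρ := by rw [hρ]; infer_instance
  have hρs : ρ (Set.Icc (-(1 + R)) (1 + R))ᶜ = 0 := by
    rw [hρ]; exact conv_supp hψ.bound hR hρ'
  obtain ⟨-, -, hcx3, hcx4⟩ := hCX
  obtain ⟨qz, hqz0, hqz1, hqz⟩ := hcx3 (1 + R) (‖K‖ + ‖z‖) z.im hz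
  obtain ⟨w, hw⟩ : ∃ w : UnitAddTorus (Fin d) → ℝ → ℂ, w = wz K z := ⟨_, rfl⟩
  have hwc : Continuous (Function.uncurry w) := by rw [hw]; exact hcx4 d K z hz.le
  have hxn : ∀ k, ‖(K k : ℂ) - z‖ ≤ ‖K‖ + ‖z‖ := by
    intro k
    refine (norm_sub_le _ _).trans ?_
    gcongr
    rw [Complex.norm_real]
    exact K.norm_coe_le_norm k
  have hxi : ∀ k, ((K k : ℂ) - z).im = - z.im := by
    intro k
    simp
  have hwq : ∀ k, ∀ a ∈ Set.Icc (-(1 + R)) (1 + R), ‖w k a‖ ≤ qz := by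
    intro k a ha
    rw [hw]
    unfold wz
    exact hqz _ _ (hxn k) (hxi k).le (abs_le.mpr ha)
  rw [← hρ, ← hw] at hs
  obtain ⟨-, -, hinv⟩ := hFIX ν d ρ (1 + R) qz w hvpos hρs hwc hqz0 hqz1 hwq
  refine hinv {s | ‖s‖ ≤ 1 - η} (isClosed_le continuous_norm continuous_const)
    ⟨0, by simp [hη1.le]⟩ (fun s hs => ?_) (fun s hs => ?_) s hs
  · have h1 : ‖s‖ ≤ 1 - η := hs
    linarith
  · have h1 : ‖s‖ ≤ 1 - η := hs
    have hs1 : ‖s‖ ≤ 1 := by linarith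
    have hqs : qz * ‖s‖ < 1 := by
      have := mul_le_mul_of_nonneg_left hs1 hqz0
      linarith
    obtain ⟨hU1, -⟩ := hUUC d ρ (1 + R) qz w s hρs hwc hqz0 hqz1.le hwq hs1 hqs
    have hUq : ‖UU ρ w s‖ ≤ q := by
      rw [ContinuousMap.norm_le _ hq0]
      intro k
      rw [hU1 k, hρ, hw]
      exact hL ρ' hρ' ((K k : ℂ) - z) (s k) ((hxn k).trans hKz)
        (by rw [hxi k]; linarith) ((s.norm_coe_le_norm k).trans h1)
    have hP := (hPSI ν d q (UU ρ w s) (UU ρ w s) hq0 hq1 hUq hUq).1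
    show ‖psi ν (UU ρ w s)‖ ≤ 1 - η
    rw [ContinuousMap.norm_le _ (by linarith)]
    intro k
    have h2 : ‖psi ν (UU ρ w s) k‖ ^ 2 ≤ (1 - η) ^ 2 := by
      refine aux (c := 1 - q ^ 2) ?_ (hP k).2.2.2.2.2 hvr hηq
      have : q ^ 2 ≤ 1 := pow_le_one₀ hq0 hq1.le
      linarith
    exact (pow_le_pow_iff_left₀ (norm_nonneg _) (by linarith) two_ne_zero).1 h2

end Pool.Agent.W654.WA.Gapc
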